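import Mathlib
import Pool.Agent.Helper29.ETK.Basic

/-!
# E-T (MP_12a1af_nt), phase 3: the schedule (definitions)

The base `CC c`, the sizes `lg c s`, the cells `gl c l s`, the slope `sl c x`, the phases `Gq c E`,
the periods `Tq c E` and the classes `cls c g` are those of `ETK`.  New: the unit width is
`Wd c s = CC c ^ ep c s` with `ep c s = epf (lg c s)`, the time epochs are
`epo c t = epf (lg c t - 1)`, where `epf` is a given epoch function (`EpFn`), and the newborn cells
are single units.

Layout at the time `t` (all ends on grids):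
* `[0, wb c t)`: the kinds `kid c t s` (as in `ETK`); the unit `b` is here iff it is merged, that is
  `tU c 3 b = b + 3 * Wd c b + 15 * Gq ≤ t`;
* `[wb c t, zb c t)`: the kinds `kidU c t s`: `T2 b`, `C2 b` (a whole unit), `mid f`, `T1 f`, `C1 f`
  (a whole mid block), `cell p` (a small cell);
* `[zb c t, t)`: the zone; its upper part `[wn c t, t)` is the window.
-/

namespace Pool.Agent.Helper29.E3

open Pool.Agent.Helper29.ETK (CC lg gl sl kk Gq Tq lv cls Kid)

/-- epoch functions -/
class EpFn where
  /-- the epoch of a size -/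
  epf : ℕ → ℕ
  mono : ∀ m n, m ≤ n → epf m ≤ epf n
  lip : ∀ m, epf (m + 1) ≤ epf m + 1
  fast : ∀ m, epf m + 1 ≤ epf (m + 2)
  slow : ∀ m, epf (m + 3) ≤ epf m + 2
  half : ∀ m, m ≤ 2 * epf m + 1
  third : ∀ m, 3 * epf m ≤ 2 * m
  gap : ∀ m, 16 ≤ m → epf m + 8 ≤ m
  small : ∀ m, m ≤ 32 → epf m = m / 2

open EpFn (epf)

variable [EpFn]

lemma epf_mono {m n : ℕ} (h : m ≤ n) : epf m ≤ epf n := EpFn.mono m n h

lemma epf_fast (m : ℕ) : epf m + 1 ≤ epf (m + 2) := EpFn.fast m

lemma epf_slow (m : ℕ) : epf (m + 3) ≤ epf m + 2 := EpFn.slow m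

lemma epf_third (m : ℕ) : 3 * epf m ≤ 2 * m := EpFn.third m

lemma epf_half (m : ℕ) : m ≤ 2 * epf m + 1 := EpFn.half m

lemma epf_succ (m : ℕ) : epf (m + 1) ≤ epf m + 1 := EpFn.lip m

lemma epf_gap {m : ℕ} (h : 16 ≤ m) : epf m + 8 ≤ m := EpFn.gap m h

lemma epf_small {m : ℕ} (h : m ≤ 32) : epf m = m / 2 := EpFn.small m h

lemma epf_le (m : ℕ) : epf m ≤ m := by
  rcases Nat.lt_or_ge m 16 with h | h
  · rw [epf_small (by omega)]; omega
  · have := epf_gap h
    omega

lemma epf_lt {m : ℕ} (h : 1 ≤ m) : epf m + 1 ≤ m := by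
  rcases Nat.lt_or_ge m 16 with h1 | h1
  · rw [epf_small (by omega)]; omega
  · have := epf_gap h1
    omega

/-- at least `k` from the size `2 k` on -/
lemma le_epf_of {k m : ℕ} (h : 2 * k ≤ m) : k ≤ epf m := by
  have := epf_half m
  omega

lemma exists_epf (e : ℕ) : ∃ m, e ≤ epf m := ⟨2 * e, by have := epf_half (2 * e); omega⟩

/-- the first size of the epoch `e` -/
def ms (e : ℕ) : ℕ := Nat.find (exists_epf e)

lemma le_epf_iff {e m : ℕ} : e ≤ epf m ↔ ms e ≤ m := by
  constructor
  · intro h
    exact Nat.find_min' _ h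
  · intro h
    exact le_trans (Nat.find_spec (exists_epf e)) (epf_mono h)

lemma epf_lt_iff {e m : ℕ} : epf m < e ↔ m < ms e := by
  have := le_epf_iff (e := e) (m := m)
  omega

lemma ms_mono {e f : ℕ} (h : e ≤ f) : ms e ≤ ms f :=
  le_epf_iff.mp (h.trans (le_epf_iff.mpr (le_refl _)))

lemma epf_zero : epf 0 = 0 := epf_small (by norm_num)

lemma ms_zero : ms 0 = 0 := by
  have := (le_epf_iff (e := 0) (m := 0)).mp (by omega)
  omega

lemma epf_ms (e : ℕ) : epf (ms e) = e := by
  apply le_antisymm
  · rcases Nat.eq_zero_or_pos (ms e) with h | h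
    · rw [h, epf_zero]; omega
    · obtain ⟨m, hm⟩ : ∃ m, ms e = m + 1 := ⟨ms e - 1, by omega⟩
      have h1 := (epf_lt_iff (e := e) (m := m)).mpr (by omega)
      have h2 := epf_succ m
      rw [hm]; omega
  · exact le_epf_iff.mpr (le_refl _)

lemma ms_succ_lt (e : ℕ) : ms e < ms (e + 1) := by
  rw [← epf_lt_iff, epf_ms]; omega

lemma ms_succ_le (e : ℕ) : ms (e + 1) ≤ ms e + 2 := by
  rw [← le_epf_iff]
  have h1 := epf_fast (ms e)
  have h2 := epf_ms e
  omega

lemma three_le_ms (e : ℕ) : 3 * e ≤ 2 * ms e := by
  have h := epf_third (ms e)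
  rwa [epf_ms] at h

lemma ms_le_two (e : ℕ) : ms e ≤ 2 * e := by
  rw [← le_epf_iff]
  have := epf_half (2 * e)
  omega

/-- the sizes of the epoch `e` -/
lemma epf_eq_iff {e m : ℕ} : epf m = e ↔ ms e ≤ m ∧ m < ms (e + 1) := by
  rw [← le_epf_iff, ← epf_lt_iff]; omega

lemma ms_small {e : ℕ} (h : e ≤ 16) : ms e = 2 * e := by
  apply le_antisymm (ms_le_two e)
  by_contra hn
  have h1 := epf_ms e
  rw [epf_small (by omega)] at h1
  omega

lemma add_eight_le_ms {e : ℕ} (h : 8 ≤ e) : e + 8 ≤ ms e := by
  have h1 := ms_mono h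
  rw [ms_small (by norm_num)] at h1
  have h2 := epf_gap (m := ms e) (by omega)
  rw [epf_ms] at h2
  exact h2

lemma le_ms (e : ℕ) : e ≤ ms e := by
  rcases Nat.lt_or_ge e 8 with h | h
  · rw [ms_small (by omega)]; omega
  · have := add_eight_le_ms h
    omega

/-- epoch of a position -/
def ep (c s : ℕ) : ℕ := epf (lg c s)

/-- width of the units at the position `s` -/
def Wd (c s : ℕ) : ℕ := CC c ^ ep c s

/-- the first tents have the level `j0 + 1` -/
def j0 (c s : ℕ) : ℕ := ep c s + 8

/-- start of the unit which contains `s` -/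
def un (c s : ℕ) : ℕ := Wd c s * (s / Wd c s)

/-- time at which the front of the tent of level `l` passes the unit `b` upwards -/
def Ut (c l b : ℕ) : ℕ := gl c l b + 5 * CC c ^ (l - 1) + sl c (b + Wd c b - gl c l b)

/-- time at which the front of the tent of level `l` passes the unit `b` downwards -/
def Dt (c l b : ℕ) : ℕ := gl c l b + 5 * CC c ^ (l - 1) + sl c (2 * CC c ^ l + gl c l b - b)

/-- epoch of a time -/
def epo (c t : ℕ) : ℕ := epf (lg c t - 1)

/-- opportunities of the class `k` -/
def IsOpp (c k τ : ℕ) : Prop := τ % Tq c (epo c τ) = 8 * Gq c (epo c τ) * k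

instance (c k : ℕ) : DecidablePred (IsOpp c k) := fun τ => by unfold IsOpp; infer_instance

/-- the last opportunity of the class `k` until the time `t` -/
def opp (c k t : ℕ) : ℕ := Nat.findGreatest (IsOpp c k) t

/-- the up event of level `l` of the unit `b` is done at the time `t` -/
def exU (c t l b : ℕ) : Prop := Ut c l b ≤ opp c (cls c (gl c l b)) t

/-- the down event of level `l` of the unit `b` is done at the time `t` -/
def exD (c t l b : ℕ) : Prop := Dt c l b ≤ opp c (cls c (gl c l b)) t

instance (c t l b : ℕ) : Decidable (exU c t l b) := by unfold exU; infer_instance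

instance (c t l b : ℕ) : Decidable (exD c t l b) := by unfold exD; infer_instance

/-- the last event of the unit `b` is done -/
def fin (c t b : ℕ) : Prop := exU c t (lg c b + 1) b

instance (c t b : ℕ) : Decidable (fin c t b) := by unfold fin; infer_instance

/-- level of the state of the unit `b` at the time `t`; `ep c b` is the newborn level -/
def lev (c t b : ℕ) : ℕ :=
  if fin c t b then lg c b + 1 else
    max (ep c b) (Nat.findGreatest (fun l => j0 c b < l ∧ exU c t l b) (lg c b))

/-- the unit `b` is in a `P` state at the time `t` -/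
def isP (c t b : ℕ) : Prop :=
  fin c t b ∨ (j0 c b < lev c t b ∧ ¬ exD c t (lev c t b) b)

instance (c t b : ℕ) : Decidable (isP c t b) := by unfold isP; infer_instance

/-- anchor of the unit `b` at the time `t`, if it is in a `P` state -/
def ga (c t b : ℕ) : ℕ := gl c (lev c t b) b

/-- anchor of the unit `b` at the time `t`, if it is in an `R` state -/
def va (c t b : ℕ) : ℕ := gl c (lev c t b) b + CC c ^ lev c t b

/-- phase of the time `t` in its slot: `0, 1, 2` transitions of the layout of `ETK`,
`5, 6, 7` merges -/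
def ph (c t : ℕ) : ℕ := t % (8 * Gq c (epo c t)) / Gq c (epo c t)

/-- start of the slot of `t` -/
def sst (c t : ℕ) : ℕ := t - t % (8 * Gq c (epo c t))

/-- the time before a possible transition -/
def tm (c t : ℕ) : ℕ := if ph c t < 3 then sst c t - 1 else t

/-- a unit in transition at the time `t`, `0` if there is none -/
def ab (c t : ℕ) : ℕ :=
  Nat.findGreatest (fun b => un c b = b ∧ ¬ (isP c (tm c t) b ↔ isP c t b)) t

/-- the anchor of the `P` region of the transition -/
def ag (c t : ℕ) : ℕ := if isP c (tm c t) (ab c t) then ga c (tm c t) (ab c t) else ga c t (ab c t)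

/-- the anchor of the `R` region of the transition -/
def av (c t : ℕ) : ℕ := if isP c (tm c t) (ab c t) then va c t (ab c t) else va c (tm c t) (ab c t)

/-- the kind of the transitional state: `0` is `P^T, R`, `1` is `P, R`, `2` is `P, R^T` -/
def ak (c t : ℕ) : ℕ := if isP c (tm c t) (ab c t) then 2 - ph c t else ph c t

/-- the `P` regions at the time `t` -/
def kidP (c t g : ℕ) : Kid := if 0 < ab c t ∧ ag c t = g ∧ ak c t = 0 then .PT g (ab c t) else .P g

/-- the `R` regions at the time `t` -/
def kidR (c t v : ℕ) : Kid :=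
  if 0 < ab c t ∧ av c t = v then (if ak c t = 2 then .RT v else .R v) else .RTh v

/-- the region which contains the position `s` at the time `t`, for `s < wb c t` -/
def kid (c t s : ℕ) : Kid :=
  if isP c (tm c t) (un c s) then kidP c t (ga c (tm c t) (un c s)) else
    if isP c t (un c s) then kidP c t (ga c t (un c s)) else kidR c t (va c t (un c s))

/-! ### the top zone -/

/-- length of the mid blocks in the epoch `e` -/
def hh (c e : ℕ) : ℕ := 2 ^ (c * (e + 4) - 10 - kk e)

/-- length of the small cells in the epoch `e`: `hh c e = 2 ^ 9 * CC c ^ 8 * ll c e` -/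
def ll (c e : ℕ) : ℕ := 2 ^ (c * (e - 3) - 19 - kk e - c)

/-- length of the mid blocks at the position `s` -/
def Hd (c s : ℕ) : ℕ := hh c (ep c s)

/-- length of the small cells at the position `s` -/
def Ld (c s : ℕ) : ℕ := ll c (ep c s)

/-- start of the mid block which contains `s` -/
def mb (c s : ℕ) : ℕ := Hd c s * (s / Hd c s)

/-- start of the small cell which contains `s` -/
def sb (c s : ℕ) : ℕ := Ld c s * (s / Ld c s)

/-- start of the small cell before the grid point `s` -/
def sp (c s : ℕ) : ℕ := sb c (s - 1)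

/-- bottom of the window -/
def wn (c t : ℕ) : ℕ := sp c (sb c t)

/-- bottom of the zone -/
def zb (c t : ℕ) : ℕ := sp c (wn c t)

/-- time of the change `j` (`1` : separate mid blocks to composite, `2` : composite to `T2`, `3` :
`T2` to the newborn cell) of the unit `b` -/
def tU (c j b : ℕ) : ℕ := b + 3 * Wd c b + (12 + j) * Gq c (epo c (b + 3 * Wd c b))

/-- time of the change `j` (`1` : separate small cells to composite, `2` : composite to `T1`, `3` :
`T1` to the mid cell) of the mid block `f` -/
def tB (c j f : ℕ) : ℕ := f + 3 * Hd c f + (4 + j) * Gq c (epo c (f + 3 * Hd c f))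

/-- start of the first unit which is not merged at the time `t` -/
noncomputable def wb (c t : ℕ) : ℕ := sInf {b | un c b = b ∧ t < tU c 3 b}

/-- kinds of regions: `old k`: as in `ETK`; `T2 b`, `C2 b`: the unit `b`, block `T` or composite of
mid cells; `mid f`, `T1 f`, `C1 f`: the mid block `f`, merged, block `T` or composite of small
cells; `cell p`: the small cell `p` -/
inductive Kid2
  | old (k : Kid)
  | T2 (b : ℕ)
  | C2 (b : ℕ)
  | mid (f : ℕ)
  | T1 (f : ℕ)
  | C1 (f : ℕ)
  | cell (p : ℕ)
  deriving DecidableEq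

/-- the kinds in mid blocks -/
def kidB (c t s : ℕ) : Kid2 :=
  if tB c 3 (mb c s) ≤ t then .mid (mb c s) else
    if tB c 2 (mb c s) ≤ t then .T1 (mb c s) else
      if tB c 1 (mb c s) ≤ t then .C1 (mb c s) else .cell (sb c s)

/-- the kinds in the units of the top zone which are not merged -/
def kidU (c t s : ℕ) : Kid2 :=
  if tU c 2 (un c s) ≤ t then .T2 (un c s) else
    if tU c 1 (un c s) ≤ t then .C2 (un c s) else kidB c t s

/-- the region which contains the position `s` at the time `t`, for `s < zb c t` -/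
noncomputable def kid2 (c t s : ℕ) : Kid2 := if s < wb c t then .old (kid c t s) else kidU c t s

/-- near threshold at the time `t` -/
def gth (c t : ℕ) : ℕ := Gq c (epo c t - 1)

/-- the thinning in the position epoch `e` -/
def th (c e : ℕ) : ℕ := CC c ^ (2 * e - ms e)

/-! ### the hash constraint -/

/-- the epoch used for `Omega` -/
def eom (c t : ℕ) : ℕ := epo c (t + 2 * Gq c (epo c t))

/-- a position in the small cell `Omega` -/
def pom (c t : ℕ) : ℕ :=
  2 * Gq c (eom c t) * ((t + Gq c (eom c t) / 2) / (2 * Gq c (eom c t)) - 1)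

/-- the small cell `Omega` at the time `t` -/
def om (c t : ℕ) : ℕ := sb c (pom c t)

/-- the kinds with a random block -/
def Kid2.isT : Kid2 → Prop
  | .old (.PT _ _) => True
  | .old (.RT _) => True
  | .T2 _ => True
  | .T1 _ => True
  | _ => False

/-- `t` is in a `T`-state -/
def tst (c t : ℕ) : Prop := ∃ s < zb c t, (kid2 c t s).isT

end Pool.Agent.Helper29.E3
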