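import Mathlib
import Pool.Agent.Helper29.E3.Sched
import Pool.Agent.Helper16.ETL.Kinds

/-!
# E-T (MP_12a1af_nt), phase 3: what is used about the functions `kid`, `kid2`

`KidOK`, `KCut`, `KidSize`, `cellKid`, `CellAt` are as in phase 1 (`ETS`), for the new schedule.
-/

namespace Pool.Agent.Helper29.E3

variable [EpFn]

open Pool.Agent.Helper29.ETK (CC lg gl sl kk Gq Tq lv cls Kid)
open Pool.Agent.ETS (IsRest)

/-- one time `t`, the part `[0, wb c t)` -/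
structure KidOK (c t : ℕ) : Prop where
  wb0 : 0 < wb c t
  wbt : wb c t ≤ t
  P : ∀ s g, s < wb c t → kid c t s = .P g → g ≤ s ∧ ∀ s', g ≤ s' → s' ≤ s → kid c t s' = .P g
  PT : ∀ s g b, s < wb c t → kid c t s = .PT g b → g ≤ b ∧ g ≤ s ∧ s < b + Wd c b ∧
    b + Wd c b ≤ av c t ∧ av c t ≤ wb c t ∧
    (∀ s', g ≤ s' → s' < b + Wd c b → kid c t s' = .PT g b) ∧
    (∀ s', b + Wd c b ≤ s' → s' < av c t → kid c t s' = .R (av c t))
  R : ∀ s v, s < wb c t → kid c t s = .R v → s < v ∧ v ≤ wb c t ∧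
    ∀ s', s ≤ s' → s' < v → kid c t s' = .R v
  RT : ∀ s v, s < wb c t → kid c t s = .RT v → s < v ∧ v ≤ wb c t ∧
    ∀ s', s ≤ s' → s' < v → kid c t s' = .RT v
  RTh : ∀ s v, s < wb c t → kid c t s = .RTh v → s < v ∧ v ≤ wb c t ∧
    ∀ s', s ≤ s' → s' < v → kid c t s' = .RTh v

/-- `x` is an end of a run of `kid` at the time `t` -/
def KCut (c t x : ℕ) : Prop := x = 0 ∨ x = wb c t ∨ kid c t (x - 1) ≠ kid c t x

/-- sizes and divisibility: `b` is the first position of a block -/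
structure KidSize (c t : ℕ) : Prop where
  P : ∀ g, ∀ s < wb c t, kid c t s = .P g → ∀ e, s < e → e ≤ wb c t → KCut c t e →
    (∀ s', s ≤ s' → s' < e → kid c t s' = .P g) → Wd c (e - 1) ∣ e ∧ Wd c (e - 1) ∣ g
  PT : ∀ g b, ∀ s < wb c t, kid c t s = .PT g b → Wd c b ∣ b ∧ Wd c b ∣ g ∧ Wd c b ∣ av c t ∧
    t ≤ CC c ^ 4 * b
  R : ∀ v, ∀ s < wb c t, kid c t s = .R v → KCut c t s → Wd c (s - 1) ∣ s ∧ Wd c (s - 1) ∣ v
  RT : ∀ v, ∀ s < wb c t, kid c t s = .RT v → KCut c t s → Wd c s ∣ s ∧ Wd c s ∣ v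
  RTh : ∀ v, ∀ s < wb c t, kid c t s = .RTh v → KCut c t s → Wd c s ∣ s ∧ Wd c s ∣ v
  ep : ∀ g, ∀ s < wb c t, (kid c t s = .P g ∨ ∃ b, kid c t s = .PT g b) → g = 0 ∨
    ep c g = ep c s
  low : ∀ x, 0 < x → x ≤ wb c t → KCut c t x → t ≤ CC c ^ 4 * x
  z : ∀ v, kid c t 0 ≠ .RTh v ∧ kid c t 0 ≠ .RT v

/-- the kinds in a cell `[g, v)` with the unit `b` in action: `0` before, `1, 2, 3` the
transitional states, `4` after (in the upward direction) -/
def cellKid (c g b v σ s : ℕ) : Kid :=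
  if σ = 0 then (if s < b then .P g else .RTh v) else
  if σ = 1 then (if s < b + Wd c b then .PT g b else .R v) else
  if σ = 2 then (if s < b + Wd c b then .P g else .R v) else
  if σ = 3 then (if s < b + Wd c b then .P g else .RT v) else
  (if s < b + Wd c b then .P g else .RTh v)

/-- the cell `[g, v)` is in the state `σ` at the time `t` and nothing else below `wb c t` is in
action -/
structure CellAt (c t g b v σ : ℕ) : Prop where
  hg : g ≤ b
  hb : b + Wd c b ≤ v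
  hv : v ≤ wb c t
  db : Wd c b ∣ b
  dg : Wd c b ∣ g
  dv : Wd c b ∣ v
  db' : Wd c (b + Wd c b) ∣ b + Wd c b
  dv' : Wd c (b + Wd c b) ∣ v
  epg : g = 0 ∨ ep c g = ep c b
  low : t ≤ CC c ^ 4 * b
  kid : ∀ s, g ≤ s → s < v → kid c t s = cellKid c g b v σ s
  cutg : g = 0 ∨ E3.kid c t (g - 1) ≠ E3.kid c t g
  cutv : v = wb c t ∨ E3.kid c t (v - 1) ≠ E3.kid c t v
  out : ∀ s, s < wb c t → (s < g ∨ v ≤ s) → IsRest (E3.kid c t s)
  av : σ = 1 → av c t = v

/-! ### the top zone -/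

/-- no random block, no transition of phase 1 -/
def Rest2 : Kid2 → Prop
  | .old k => IsRest k
  | .T2 _ => False
  | .T1 _ => False
  | _ => True

/-- the order of the kinds: `old < T2, C2 < mid < T1, C1 < cell` -/
def rank2 : Kid2 → ℕ
  | .old _ => 0
  | .T2 _ => 1
  | .C2 _ => 1
  | .mid _ => 2
  | .T1 _ => 3
  | .C1 _ => 3
  | .cell _ => 4

/-- start of the first mid block which is not merged -/
noncomputable def fb (c t : ℕ) : ℕ := sInf {f | mb c f = f ∧ t < tB c 3 f}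

/-- the top zone at the time `t` -/
structure TopOK (c t : ℕ) : Prop where
  wbz : wb c t ≤ zb c t
  /-- the last complete small cell and the window -/
  sbt : sb c t ≤ t ∧ t < sb c t + Ld c t ∧ sb c (sb c t) = sb c t
  wn1 : wn c t + Ld c (wn c t) = sb c t ∧ sb c (wn c t) = wn c t
  zb1 : zb c t + Ld c (zb c t) = wn c t ∧ sb c (zb c t) = zb c t
  ep : ∀ s, wb c t ≤ s → s ≤ t → epo c t ≤ E3.ep c s ∧ E3.ep c s ≤ epo c t + 1
  T2 : ∀ s b, s < zb c t → kid2 c t s = .T2 b → b = wb c t ∧ b ≤ s ∧ s < b + Wd c b ∧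
    b + Wd c b ≤ zb c t ∧ un c b = b ∧ tU c 2 b ≤ t ∧ t < tU c 3 b ∧
    ∀ s', b ≤ s' → s' < b + Wd c b → kid2 c t s' = .T2 b
  C2 : ∀ s b, s < zb c t → kid2 c t s = .C2 b → b = wb c t ∧ b ≤ s ∧ s < b + Wd c b ∧
    b + Wd c b ≤ zb c t ∧ un c b = b ∧ tU c 1 b ≤ t ∧ t < tU c 2 b ∧
    ∀ s', b ≤ s' → s' < b + Wd c b → kid2 c t s' = .C2 b
  mid : ∀ s f, s < zb c t → kid2 c t s = .mid f → wb c t ≤ f ∧ f ≤ s ∧ s < f + Hd c f ∧
    f + Hd c f ≤ zb c t ∧ mb c f = f ∧ tB c 3 f ≤ t ∧ f < fb c t ∧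
    ∀ s', f ≤ s' → s' < f + Hd c f → kid2 c t s' = .mid f
  T1 : ∀ s f, s < zb c t → kid2 c t s = .T1 f → f = fb c t ∧ wb c t ≤ f ∧ f ≤ s ∧
    s < f + Hd c f ∧ f + Hd c f ≤ zb c t ∧ mb c f = f ∧ tB c 2 f ≤ t ∧ t < tB c 3 f ∧
    ∀ s', f ≤ s' → s' < f + Hd c f → kid2 c t s' = .T1 f
  C1 : ∀ s f, s < zb c t → kid2 c t s = .C1 f → f = fb c t ∧ wb c t ≤ f ∧ f ≤ s ∧
    s < f + Hd c f ∧ f + Hd c f ≤ zb c t ∧ mb c f = f ∧ tB c 1 f ≤ t ∧ t < tB c 2 f ∧
    ∀ s', f ≤ s' → s' < f + Hd c f → kid2 c t s' = .C1 f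
  cell : ∀ s p, s < zb c t → kid2 c t s = .cell p → fb c t ≤ p ∧ wb c t ≤ p ∧ p ≤ s ∧
    s < p + Ld c p ∧ p + Ld c p ≤ zb c t ∧ sb c p = p ∧
    ∀ s', p ≤ s' → s' < p + Ld c p → kid2 c t s' = .cell p
  /-- order -/
  mono : ∀ s s', s ≤ s' → s' < zb c t → rank2 (kid2 c t s) ≤ rank2 (kid2 c t s')
  /-- depths -/
  fb1 : wb c t ≤ fb c t ∧ mb c (fb c t) = fb c t ∧ t < fb c t + 4 * Hd c (fb c t) ∧
    fb c t + 2 * Hd c (fb c t - 1) ≤ t
  wb1 : un c (wb c t) = wb c t ∧ t < wb c t + 4 * Wd c (wb c t) ∧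
    wb c t + 2 * Wd c (wb c t - 1) ≤ t

/-- the kinds in a unit `b`: stage `0` separate mid blocks, `1` composite, `2` block `T2`, `3`
newborn cell -/
def unitKid (c b j s : ℕ) : Kid2 :=
  if j = 0 then .mid (mb c s) else if j = 1 then .C2 b else if j = 2 then .T2 b else
    .old (.RTh (b + Wd c b))

/-- the kinds in a mid block `f`: stage `0` small cells, `1` composite, `2` block `T1`, `3`
mid cell -/
def blockKid (c f j s : ℕ) : Kid2 :=
  if j = 0 then .cell (sb c s) else if j = 1 then .C1 f else if j = 2 then .T1 f else .mid f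

/-- the unit `b` is in the stage `j` at the time `t` -/
structure UnitAt (c t b j : ℕ) : Prop where
  ub : un c b = b
  pos : 0 < b
  top : b + Wd c b ≤ zb c t
  wb : wb c t = if j = 3 then b + Wd c b else b
  kid : ∀ s, b ≤ s → s < b + Wd c b → kid2 c t s = unitKid c b j s
  cutb : kid2 c t (b - 1) ≠ kid2 c t b
  cute : kid2 c t (b + Wd c b - 1) ≠ kid2 c t (b + Wd c b)

/-- the mid block `f` is in the stage `j` at the time `t` -/
structure BlockAt (c t f j : ℕ) : Prop where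
  bf : mb c f = f
  pos : 0 < f
  wb : wb c t ≤ f
  top : f + Hd c f ≤ zb c t
  fb : fb c t = if j = 3 then f + Hd c f else f
  kid : ∀ s, f ≤ s → s < f + Hd c f → kid2 c t s = blockKid c f j s
  cutf : kid2 c t (f - 1) ≠ kid2 c t f
  cute : kid2 c t (f + Hd c f - 1) ≠ kid2 c t (f + Hd c f)

/-- the small cell `o` is a rest cell at the time `t`, below the zone -/
structure OmAt (c t o : ℕ) : Prop where
  so : sb c o = o
  wb : wb c t ≤ o
  fb : fb c t ≤ o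
  top : o + 2 * Ld c o ≤ zb c t
  kid : ∀ s, o ≤ s → s < o + Ld c o → kid2 c t s = .cell o

/-- two close times, everything at rest -/
structure NearRest (c K K' : ℕ) : Prop where
  wb : wb c K = wb c K'
  kid : ∀ s, s < zb c K' → kid2 c K s = kid2 c K' s ∧ Rest2 (kid2 c K' s)

/-- two close times, a cell of phase 1 in action (`σ = σ' = 2` is the state `P, R` at both times,
without a random block) -/
structure NearCell (c K K' : ℕ) (g b v σ σ' : ℕ) : Prop where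
  wb : wb c K = wb c K'
  adj : σ = σ' ∨ σ = σ' + 1 ∨ σ' = σ + 1
  hσ : σ ≤ 4
  hσ' : σ' ≤ 4
  cell : CellAt c K g b v σ
  cell' : CellAt c K' g b v σ'
  kid : ∀ s, s < zb c K' → (s < g ∨ v ≤ s) → kid2 c K s = kid2 c K' s ∧ Rest2 (kid2 c K' s)
  om : om c K = om c K' ∨ (σ = 2 ∧ σ' = 2)

/-- two close times, a unit of the top zone in action -/
structure NearUnit (c K K' : ℕ) (b j j' : ℕ) : Prop where
  adj : j = j' ∨ j = j' + 1
  hj : j ≤ 3
  act : 2 ≤ j ∨ j ≠ j'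
  unit : UnitAt c K b j
  unit' : UnitAt c K' b j'
  kid : ∀ s, s < zb c K' → (s < b ∨ b + Wd c b ≤ s) → kid2 c K s = kid2 c K' s ∧
    Rest2 (kid2 c K' s)
  om : om c K = om c K'

/-- two close times, a mid block in action -/
structure NearBlock (c K K' : ℕ) (f j j' : ℕ) : Prop where
  adj : j = j' ∨ j = j' + 1
  hj : j ≤ 3
  act : 2 ≤ j ∨ j ≠ j'
  wb : wb c K = wb c K'
  block : BlockAt c K f j
  block' : BlockAt c K' f j'
  kid : ∀ s, s < zb c K' → (s < f ∨ f + Hd c f ≤ s) → kid2 c K s = kid2 c K' s ∧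
    Rest2 (kid2 c K' s)
  om : om c K = om c K'

/-- two close times `K' ≤ K` -/
structure NearK2 (c K K' : ℕ) : Prop where
  zbm : zb c K' ≤ zb c K
  omA : OmAt c K' (om c K')
  omB : OmAt c K (om c K')
  omC : OmAt c K (om c K)
  act : NearRest c K K' ∨ (∃ g b v σ σ', NearCell c K K' g b v σ σ') ∨
    (∃ b j j', NearUnit c K K' b j j') ∨ ∃ f j j', NearBlock c K K' f j j'

end Pool.Agent.Helper29.E3
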