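import Mathlib
import Pool.Agent.Helper29.E3.Basic
import Pool.Agent.Helper29.ETK.Opp

/-!
# E-T (MP_12a1af_nt), phase 3: opportunities and slots
-/

namespace Pool.Agent.Helper29.E3

variable [EpFn]

open Pool.Agent.Helper29.ETK

variable {c : ℕ}

lemma lg_of_epo {t E : ℕ} (h : epo c t = E) (hE : 1 ≤ E) :
    ms E + 1 ≤ lg c t ∧ lg c t ≤ ms (E + 1) := by
  unfold epo at h
  have h1 := epf_eq_iff.mp h
  have h2 : 0 < ms E := lt_of_lt_of_le (by omega) (le_ms E)
  omega

lemma epo_lower {t E : ℕ} (h : epo c t = E) (hE : 1 ≤ E) :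
    CC c ^ (ms E + 1) ≤ t := by
  have h1 := (lg_of_epo h hE).1
  have h0 : t ≠ 0 := by
    rintro rfl
    simp [lg] at h1
  exact (pow_le c h1).trans (lg_le c h0)

lemma epo_upper (hc : 10 ≤ c) {t E : ℕ} (h : epo c t = E) (hE : 1 ≤ E) :
    t < CC c ^ (ms (E + 1) + 1) := by
  have h1 := (lg_of_epo h hE).2
  exact (lt_lg hc t).trans_le (pow_le c (by omega))

lemma epo_eq (hc : 10 ≤ c) {t E : ℕ} (h1 : CC c ^ (ms E + 1) ≤ t)
    (h2 : t < CC c ^ (ms (E + 1) + 1)) : epo c t = E := by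
  have h3 := le_lg hc h1
  have h4 := lg_lt (by omega) h2
  unfold epo
  rw [epf_eq_iff]
  omega

lemma epo_mono {t t' : ℕ} (h : t ≤ t') : epo c t ≤ epo c t' := by
  unfold epo
  have := lg_mono (c := c) h
  exact epf_mono (by omega)

lemma opp_le (c k t : ℕ) : opp c k t ≤ t := Nat.findGreatest_le t

lemma opp_mono (c k : ℕ) {t t' : ℕ} (h : t ≤ t') : opp c k t ≤ opp c k t' :=
  Nat.findGreatest_mono_right _ h

lemma opp_isOpp {k t : ℕ} (h : opp c k t ≠ 0) : IsOpp c k (opp c k t) :=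
  Nat.findGreatest_of_ne_zero rfl h

lemma le_opp {k t τ : ℕ} (h : IsOpp c k τ) (ht : τ ≤ t) : τ ≤ opp c k t :=
  Nat.le_findGreatest ht h

lemma epoch_long (hc : 10 ≤ c) {E : ℕ} (hE : 5 ≤ E) :
    CC c ^ (ms (E - 1) + 1) + Tq c (E - 1) ≤ CC c ^ (ms E + 1) := by
  have hlt := ms_succ_lt (E - 1)
  rw [show E - 1 + 1 = E by omega] at hlt
  have e1 : CC c ^ (ms (E - 1) + 1) * CC c ≤ CC c ^ (ms E + 1) := by
    rw [← pow_succ]; exact pow_le c (by omega)
  have e2 : Tq c (E - 1) ≤ CC c ^ (ms (E - 1) + 1) := by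
    have h5 := Tq_eq (c := c) (E := E - 1) hc (by omega)
    have h6 : CC c ^ (E - 1 - 1) ≤ CC c ^ (ms (E - 1) + 1) :=
      pow_le c (by have := le_ms (E - 1); omega)
    have h7 : Tq c (E - 1) ≤ 128 * Tq c (E - 1) := Nat.le_mul_of_pos_left _ (by norm_num)
    exact h7.trans (h5.le.trans h6)
  have e3 : 2 ≤ CC c := by
    have := CC_ge hc
    omega
  refine le_trans ?_ e1
  calc CC c ^ (ms (E - 1) + 1) + Tq c (E - 1)
      ≤ CC c ^ (ms (E - 1) + 1) + CC c ^ (ms (E - 1) + 1) := Nat.add_le_add_left e2 _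
    _ = CC c ^ (ms (E - 1) + 1) * 2 := by ring
    _ ≤ _ := Nat.mul_le_mul_left _ e3

/-- existence of an opportunity in the same epoch -/
lemma exists_opp1 (hc : 10 ≤ c) {k t E : ℕ} (hEdef : epo c t = E) (hE : 5 ≤ E)
    (hk : k < 8 * (3 * E + 7)) (h : CC c ^ (ms E + 1) + 8 * Gq c E * k ≤ t) :
    t < opp c k t + Tq c E := by
  have hup := epo_upper hc hEdef (by omega)
  have hTpos := Tq_pos c E
  have hN := le_two_kk E
  have hTk : 8 * Gq c E * k < Tq c E := mul_lt_Tq (by omega)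
  obtain ⟨r, hr⟩ := Tq_dvd (c := c) (E := E) (l := ms E + 1) hc (by omega) (by have := le_ms E; omega)
  generalize hP : CC c ^ (ms E + 1) = P at *
  generalize hQ : CC c ^ (ms (E + 1) + 1) = Q at *
  generalize ha : 8 * Gq c E * k = a at *
  obtain ⟨τ, hτ⟩ : ∃ τ, τ = Tq c E * ((t - a) / Tq c E) + a := ⟨_, rfl⟩
  have h1 : Tq c E * ((t - a) / Tq c E) ≤ t - a := Nat.mul_div_le _ _
  have h2 : t - a < Tq c E * ((t - a) / Tq c E) + Tq c E := by
    have := Nat.lt_mul_div_succ (t - a) hTpos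
    rw [mul_add, mul_one] at this
    exact this
  have h3 : Tq c E * r ≤ Tq c E * ((t - a) / Tq c E) := by
    apply Nat.mul_le_mul_left
    rw [Nat.le_div_iff_mul_le hTpos, mul_comm, ← hr]
    omega
  have hτt : τ ≤ t := by omega
  have hepo : epo c τ = E := by
    apply epo_eq hc
    · rw [hP, hr]; omega
    · rw [hQ]; omega
  have hI : IsOpp c k τ := by
    unfold IsOpp
    rw [hepo, hτ, Nat.mul_add_mod, ha]
    exact Nat.mod_eq_of_lt hTk
  have := le_opp hI hτt
  omega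

/-- existence of an opportunity in the previous epoch -/
lemma exists_opp2 (hc : 10 ≤ c) {k t E : ℕ} (hEdef : epo c t = E) (hE : 5 ≤ E)
    (hk : k < 8 * (3 * E + 7)) (h : t < CC c ^ (ms E + 1) + 8 * Gq c E * k) :
    t < opp c k t + 8 * Gq c E * k + Tq c (E - 1) := by
  have hlow := epo_lower hEdef (by omega)
  have hE1 : ms (E - 1 + 1) + 1 = ms E + 1 := by rw [show E - 1 + 1 = E by omega]
  have hN' := le_two_kk (E - 1)
  have hTpos' := Tq_pos c (E - 1)
  have hTk' : 8 * Gq c (E - 1) * k < Tq c (E - 1) := mul_lt_Tq (by omega)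
  obtain ⟨r', hr'⟩ := Tq_dvd (c := c) (E := E - 1) (l := ms E + 1) hc (by omega) (by have := le_ms E; omega)
  have hlong := epoch_long (c := c) hc hE
  have hpos := pow_pos' c (ms E + 1)
  generalize hP : CC c ^ (ms E + 1) = P at *
  generalize hQ : CC c ^ (ms (E - 1) + 1) = Q at *
  generalize ha : 8 * Gq c E * k = a at *
  generalize ha' : 8 * Gq c (E - 1) * k = a' at *
  have hr'pos : r' ≠ 0 := by
    rintro rfl
    rw [mul_zero] at hr'
    omega
  obtain ⟨m, rfl⟩ : ∃ m, r' = m + 1 := ⟨r' - 1, by omega⟩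
  have hmul : Tq c (E-1) * (m + 1) = Tq c (E-1) * m + Tq c (E - 1) := by ring
  obtain ⟨τ, hτ⟩ : ∃ τ, τ = Tq c (E - 1) * m + a' := ⟨_, rfl⟩
  generalize hx : Tq c (E - 1) * m = x at *
  have hτt : τ ≤ t := by omega
  have hepo : epo c τ = E - 1 := by
    apply epo_eq hc
    · rw [hQ]; omega
    · rw [hE1, hP]; omega
  have hI : IsOpp c k τ := by
    unfold IsOpp
    rw [hepo, hτ, ← hx, Nat.mul_add_mod, ha']
    exact Nat.mod_eq_of_lt hTk'
  have := le_opp hI hτt
  omega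

/-- the classes in use have an opportunity in every double period -/
lemma lt_opp_add (hc : 10 ≤ c) {k t : ℕ} (hE : 5 ≤ epo c t) (hk : k < 8 * (3 * epo c t + 7)) :
    t < opp c k t + 2 * Tq c (epo c t) := by
  have hN := le_two_kk (epo c t)
  have hTk : 8 * Gq c (epo c t) * k < Tq c (epo c t) := mul_lt_Tq (by omega)
  have hTE : Tq c (epo c t - 1) ≤ Tq c (epo c t) := Tq_mono hc (by omega) (by omega)
  rcases Nat.lt_or_ge t (CC c ^ (ms (epo c t) + 1) + 8 * Gq c (epo c t) * k) with h | h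
  · have := exists_opp2 hc rfl hE hk h
    omega
  · have := exists_opp1 hc rfl hE hk h
    omega

/-! ### slots -/

/-- class of the slot of `t` -/
def scl (c t : ℕ) : ℕ := sst c t % Tq c (epo c t) / (8 * Gq c (epo c t))

lemma sst_le (c t : ℕ) : sst c t ≤ t := Nat.sub_le _ _

lemma lt_sst (c t : ℕ) : t < sst c t + 8 * Gq c (epo c t) := by
  unfold sst
  have h1 := Nat.mod_lt t (show 0 < 8 * Gq c (epo c t) by have := Gq_pos c (epo c t); omega)
  omega

lemma dvd_sst (c t : ℕ) : 8 * Gq c (epo c t) ∣ sst c t := Nat.dvd_sub_mod t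

lemma epo_sst (hc : 10 ≤ c) {t : ℕ} (hE : 4 ≤ epo c t) : epo c (sst c t) = epo c t := by
  have hlow := epo_lower (c := c) (t := t) rfl (by omega)
  have hup := epo_upper hc (t := t) rfl (by omega)
  apply epo_eq hc
  · obtain ⟨r, hr⟩ := (Gq_dvd c (epo c t)).trans
      (Tq_dvd (c := c) (E := epo c t) (l := ms (epo c t) + 1) hc hE (by have := le_ms (epo c t); omega))
    obtain ⟨m, hm⟩ := dvd_sst c t
    rw [hr] at hlow ⊢
    rw [hm]
    have h2 := lt_sst c t
    rw [hm] at h2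
    apply Nat.mul_le_mul_left
    by_contra hlt
    have h3 : m + 1 ≤ r := by omega
    have h4 := Nat.mul_le_mul_left (8 * Gq c (epo c t)) h3
    rw [mul_add, mul_one] at h4
    omega
  · exact (sst_le c t).trans_lt hup

lemma isOpp_slot (hc : 10 ≤ c) {k t τ : ℕ} (hE : 4 ≤ epo c t) (h : IsOpp c k τ)
    (h1 : sst c t ≤ τ) (h2 : τ ≤ t) : τ = sst c t ∧ k = scl c t := by
  have hepo : epo c τ = epo c t := by
    have a := epo_mono (c := c) h1
    have b := epo_mono (c := c) h2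
    rw [epo_sst hc hE] at a
    omega
  unfold IsOpp at h
  rw [hepo] at h
  set E := epo c t with hEdef
  have hG : 0 < 8 * Gq c E := by have := Gq_pos c E; omega
  have h3 : 8 * Gq c E ∣ τ := by
    have h4 : 8 * Gq c E ∣ τ % Tq c E := by rw [h]; exact Dvd.intro _ rfl
    exact (Nat.dvd_mod_iff (Gq_dvd c E)).mp h4
  have h5 := dvd_sst c t
  rw [← hEdef] at h5
  have h6 := lt_sst c t
  rw [← hEdef] at h6
  have h7 : τ = sst c t := by
    obtain ⟨a, ha⟩ := h3
    obtain ⟨b, hb⟩ := h5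
    rw [hb] at h6 h1 ⊢
    rw [ha] at h1 h2 ⊢
    have h8 : b ≤ a := le_of_mul_le_mul_left h1 hG
    have h9 : 8 * Gq c E * a < 8 * Gq c E * (b + 1) := by rw [mul_add, mul_one]; omega
    have h10 : a < b + 1 := lt_of_mul_lt_mul_left h9 (Nat.zero_le _)
    congr 1
    omega
  refine ⟨h7, ?_⟩
  unfold scl
  rw [← hEdef, ← h7, h, Nat.mul_div_cancel_left _ hG]

lemma opp_change (hc : 10 ≤ c) {k t : ℕ} (hE : 4 ≤ epo c t)
    (h : opp c k t ≠ opp c k (sst c t - 1)) : opp c k t = sst c t ∧ k = scl c t := by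
  have h1 := opp_mono c k (show sst c t - 1 ≤ t by have := sst_le c t; omega)
  have h0 : opp c k t ≠ 0 := by
    intro h0
    omega
  have h2 := opp_isOpp h0
  have h3 := opp_le c k t
  by_cases h4 : sst c t ≤ opp c k t
  · exact isOpp_slot hc hE h2 h4 h3
  · exfalso
    have h5 := le_opp h2 (show opp c k t ≤ sst c t - 1 by omega)
    omega

lemma tm_le (c t : ℕ) : tm c t ≤ t := by
  unfold tm
  have := sst_le c t
  split_ifs <;> omega

lemma opp_tm_change (hc : 10 ≤ c) {k t : ℕ} (hE : 4 ≤ epo c t)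
    (h : opp c k t ≠ opp c k (tm c t)) :
    opp c k t = sst c t ∧ k = scl c t ∧ ph c t < 3 ∧ tm c t = sst c t - 1 := by
  unfold tm at h ⊢
  split_ifs at h ⊢ with h3
  · have := opp_change hc hE h
    exact ⟨this.1, this.2, h3, rfl⟩
  · exact absurd rfl h

/-- `t` is at most `3` phases after the start of a slot with phase `< 3` -/
lemma lt_sst_of_ph {t : ℕ} (h : ph c t < 3) : t < sst c t + 3 * Gq c (epo c t) := by
  unfold ph at h
  unfold sst
  have hG := Gq_pos c (epo c t)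
  rw [Nat.div_lt_iff_lt_mul hG] at h
  have := Nat.mod_le t (8 * Gq c (epo c t))
  omega

lemma lt_tm (c t : ℕ) : t ≤ tm c t + 3 * Gq c (epo c t) := by
  unfold tm
  split_ifs with h
  · have := lt_sst_of_ph h
    omega
  · omega

end Pool.Agent.Helper29.E3
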