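import Mathlib
import Pool.Agent.Helper29.E3.Opp
import Pool.Agent.Helper29.ETK.Times

/-!
# E-T (MP_12a1af_nt), phase 3: the event times of a unit
-/

namespace Pool.Agent.Helper29.E3

variable [EpFn]

open Pool.Agent.Helper29.ETK

variable {c : ℕ}

/-- the width of the units is small -/
lemma Wd_le (hc : 10 ≤ c) {b : ℕ} (hb : 3 ≤ lg c b) : 1024 * Wd c b ≤ b := by
  have h1 := ep_succ_le (c := c) (s := b) (by omega)
  have h0 : b ≠ 0 := by rintro rfl; simp [lg] at hb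
  have h2 := pow_pred_le (c := c) hc (l := lg c b) (by omega)
  have h3 := pow_le c (show ep c b ≤ lg c b - 1 by omega)
  have h4 := lg_le c h0
  unfold Wd
  omega

lemma CC_dvd_Wd {b : ℕ} (hb : 3 ≤ lg c b) : CC c ∣ Wd c b :=
  CC_dvd_pow (le_ep_of (by omega))

lemma Wd_dvd_gl {l b : ℕ} (h : ep c b ≤ l) : Wd c b ∣ gl c l b :=
  (Wd_dvd_pow h).trans (dvd_gl c l b)

/-- the next unit is still in the cell -/
lemma un_add_le {l b : ℕ} (hb : un c b = b) (h : ep c b ≤ l) :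
    b + Wd c b ≤ gl c l b + CC c ^ l := by
  have h1 := Wd_dvd_gl (c := c) h
  have h2 := Wd_dvd_pow (c := c) h
  have h3 := un_eq_iff.mp hb
  have h4 := lt_gl c l b
  obtain ⟨k, hk⟩ := Dvd.dvd.add h1 h2
  obtain ⟨m, hm⟩ := h3
  have h5 : m < k := by
    have : Wd c b * m < Wd c b * k := by rw [← hk, ← hm]; exact h4
    exact lt_of_mul_lt_mul_left this (Nat.zero_le _)
  rw [hk]
  calc b + Wd c b = Wd c b * m + Wd c b := by rw [← hm]
    _ = Wd c b * (m + 1) := by ring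
    _ ≤ _ := Nat.mul_le_mul_left _ h5

lemma le_Ut (c l b : ℕ) : b ≤ Ut c l b := by
  unfold Ut
  have h1 := gl_le c l b
  have h2 := le_sl c (b + Wd c b - gl c l b)
  omega

lemma le_Dt (c l b : ℕ) : b ≤ Dt c l b := by
  unfold Dt
  have h1 := gl_le c l b
  have h2 := lt_gl c l b
  have h3 := le_sl c (2 * CC c ^ l + gl c l b - b)
  omega

lemma Ut_le (hc : 10 ≤ c) {l b : ℕ} (hb : 3 ≤ lg c b) (hl : l ≤ lg c b + 1) :
    Ut c l b ≤ 7 * b := by
  have h0 : b ≠ 0 := by rintro rfl; simp [lg] at hb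
  have h1 : CC c ^ (l - 1) ≤ b := (pow_le c (by omega)).trans (lg_le c h0)
  have h2 := Wd_le hc hb
  have h3 := sl_le hc (b + Wd c b - gl c l b)
  have h4 := gl_le c l b
  unfold Ut
  omega

lemma Dt_le_cell (hc : 10 ≤ c) {l b : ℕ} (hl : 1 ≤ l) :
    Dt c l b ≤ gl c l b + 2 * CC c ^ l + 7 * CC c ^ (l - 1) := by
  have h1 := gl_le c l b
  have h3 : sl c (2 * CC c ^ l + gl c l b - b) ≤ sl c (2 * CC c ^ l) := sl_mono (by omega)
  rw [sl_two_pow hl] at h3
  unfold Dt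
  omega

lemma Dt_le (hc : 10 ≤ c) {l b : ℕ} (hb : 3 ≤ lg c b) (hl : 1 ≤ l) (hl2 : l ≤ lg c b) :
    Dt c l b ≤ 7 * b := by
  have h0 : b ≠ 0 := by rintro rfl; simp [lg] at hb
  have h1 : CC c ^ l ≤ b := (pow_le c hl2).trans (lg_le c h0)
  have h2 := pow_pred_le (c := c) hc hl
  have h3 := Dt_le_cell (c := c) hc (b := b) hl
  have h4 := gl_le c l b
  omega

/-- in one tent the front goes up over every unit before it goes down -/
lemma Ut_add_le_Dt (hc : 10 ≤ c) {l b b' : ℕ} (hb : un c b = b) (hl : 1 ≤ l) (h : ep c b ≤ l)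
    (hb' : un c b' = b') (h' : ep c b' ≤ l) (hg : gl c l b = gl c l b') :
    Ut c l b + sl c (Wd c b') ≤ Dt c l b' := by
  have h1 := un_add_le hb h
  have h2 := un_add_le hb' h'
  have h3 := gl_le c l b
  have h4 := gl_le c l b'
  have h5 : sl c (b + Wd c b - gl c l b) ≤ sl c (CC c ^ l) := sl_mono (by omega)
  have h6 : sl c (CC c ^ l + Wd c b') ≤ sl c (2 * CC c ^ l + gl c l b' - b') := sl_mono (by omega)
  rw [sl_add (CC_dvd_pow hl)] at h6
  unfold Ut Dt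
  rw [hg] at h5 ⊢
  omega

/-- the next level comes much later -/
lemma Dt_add_le_Ut (hc : 10 ≤ c) {l b b' : ℕ} (hl : 1 ≤ l) (hg : gl c l b = gl c l b') :
    Dt c l b + 2 * CC c ^ l ≤ Ut c (l + 1) b' := by
  have h1 := Dt_le_cell (c := c) hc (b := b) hl
  have h2 := pow_pred_le (c := c) hc hl
  have h3 : gl c (l+1) b' + 5 * CC c ^ l + (b' + Wd c b' - gl c (l+1) b') ≤ Ut c (l + 1) b' := by
    unfold Ut
    have := le_sl c (b' + Wd c b' - gl c (l+1) b')
    rw [Nat.add_sub_cancel]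
    omega
  have h4 := gl_le c (l+1) b'
  have h5 := gl_le c l b'
  rw [← hg] at h5
  omega

lemma dvd_of_unit {l b : ℕ} (hb3 : 3 ≤ lg c b) (hb : un c b = b) (h : ep c b ≤ l) :
    CC c ∣ b + Wd c b - gl c l b :=
  (CC_dvd_Wd hb3).trans (Nat.dvd_sub (Dvd.dvd.add (un_eq_iff.mp hb) (dvd_refl _)) (Wd_dvd_gl h))

lemma dvd_of_unit' {l b : ℕ} (hb3 : 3 ≤ lg c b) (hb : un c b = b) (h : ep c b ≤ l) :
    CC c ∣ 2 * CC c ^ l + gl c l b - b :=
  (CC_dvd_Wd hb3).trans (Nat.dvd_sub (Dvd.dvd.add ((Wd_dvd_pow h).mul_left 2) (Wd_dvd_gl h))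
    (un_eq_iff.mp hb))

/-- up events in one tent -/
lemma Ut_diff {l b b' : ℕ} (hb3 : 3 ≤ lg c b) (hb : un c b = b) (h : ep c b ≤ l)
    (hg : gl c l b = gl c l b') (hW : Wd c b = Wd c b') (hbb : b ≤ b') :
    Ut c l b' = Ut c l b + sl c (b' - b) := by
  have h1 := dvd_of_unit hb3 hb h
  have h2 := sl_add h1 (b' - b)
  have h3 := gl_le c l b
  have e : b' + Wd c b' - gl c l b' = b + Wd c b - gl c l b + (b' - b) := by
    rw [← hg, ← hW]; omega
  unfold Ut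
  rw [e, h2, ← hg]
  omega

/-- down events in one tent -/
lemma Dt_diff {l b b' : ℕ} (hb3 : 3 ≤ lg c b') (hb : un c b' = b') (h : ep c b' ≤ l)
    (hg : gl c l b = gl c l b') (hbb : b ≤ b') :
    Dt c l b = Dt c l b' + sl c (b' - b) := by
  have h1 := dvd_of_unit' hb3 hb h
  have h2 := sl_add h1 (b' - b)
  have h3 := gl_le c l b
  have h4 := lt_gl c l b'
  have e : 2 * CC c ^ l + gl c l b - b = 2 * CC c ^ l + gl c l b' - b' + (b' - b) := by
    rw [hg]; omega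
  unfold Dt
  rw [e, h2, hg]
  omega

/-- the last events -/
lemma Ut_top (hc : 10 ≤ c) (b : ℕ) :
    Ut c (lg c b + 1) b = 5 * CC c ^ lg c b + sl c (b + Wd c b) := by
  unfold Ut
  rw [gl_top hc, Nat.add_sub_cancel]
  simp

lemma Wd_mono {b b' : ℕ} (h : b ≤ b') : Wd c b ≤ Wd c b' := by
  unfold Wd
  exact pow_le c (ep_mono h)

lemma Ut_top_mono (hc : 10 ≤ c) {b b' : ℕ} (h : b ≤ b') :
    Ut c (lg c b + 1) b ≤ Ut c (lg c b' + 1) b' := by
  rw [Ut_top hc, Ut_top hc]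
  have h1 := pow_le c (lg_mono (c := c) h)
  have h2 := Wd_mono (c := c) h
  have h3 : sl c (b + Wd c b) ≤ sl c (b' + Wd c b') := sl_mono (by omega)
  omega

/-- two different units: the first ends before the second begins -/
lemma unit_add_le (hc : 10 ≤ c) {b b' : ℕ} (hb : un c b = b) (hb' : un c b' = b') (h : b < b') :
    b + Wd c b ≤ b' := by
  have h1 : Wd c b ∣ Wd c b' := by
    unfold Wd
    exact pow_dvd' c (ep_mono h.le)
  have h2 := un_eq_iff.mp hb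
  have h3 := h1.trans (un_eq_iff.mp hb')
  obtain ⟨k, hk⟩ := h2
  obtain ⟨m, hm⟩ := h3
  have h4 : k < m := by
    have : Wd c b * k < Wd c b * m := by rw [← hk, ← hm]; exact h
    exact lt_of_mul_lt_mul_left this (Nat.zero_le _)
  have h5 := Nat.mul_le_mul_left (Wd c b) (Nat.succ_le_of_lt h4)
  calc b + Wd c b = Wd c b * k + Wd c b := by rw [← hk]
    _ = Wd c b * (k + 1) := by ring
    _ ≤ Wd c b * m := h5
    _ = b' := hm.symm

lemma Ut_top_diff (hc : 10 ≤ c) {b b' : ℕ} (hb3 : 3 ≤ lg c b) (hb : un c b = b)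
    (h : b ≤ b') :
    Ut c (lg c b + 1) b + sl c (b' + Wd c b' - (b + Wd c b)) ≤ Ut c (lg c b' + 1) b' := by
  rw [Ut_top hc, Ut_top hc]
  have h1 := pow_le c (lg_mono (c := c) h)
  have h2 := Wd_mono (c := c) h
  have h3 : CC c ∣ b + Wd c b :=
    (CC_dvd_Wd hb3).trans (Dvd.dvd.add (un_eq_iff.mp hb) (dvd_refl _))
  have h4 := sl_add h3 (b' + Wd c b' - (b + Wd c b))
  have e : b + Wd c b + (b' + Wd c b' - (b + Wd c b)) = b' + Wd c b' := by omega
  rw [e] at h4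
  omega

end Pool.Agent.Helper29.E3
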