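import Mathlib
import Pool.Agent.Helper29.E3.State
import Pool.Agent.Helper29.ETK.Excl

/-!
# E-T (MP_12a1af_nt), phase 3: at most one event per slot
-/

namespace Pool.Agent.Helper29.E3

variable [EpFn]

open Pool.Agent.Helper29.ETK

variable {c : ℕ}

/-- time of an event (`d = true`: down) -/
def evt (c : ℕ) (d : Bool) (l b : ℕ) : ℕ := if d = true then Dt c l b else Ut c l b

/-- the events of the unit `b` -/
def vld (c : ℕ) (d : Bool) (l b : ℕ) : Prop :=
  un c b = b ∧ 16 ≤ lg c b ∧ j0 c b < l ∧ l ≤ lg c b + 1 ∧ (d = true → l ≤ lg c b)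

lemma gl_le_evt (c : ℕ) (d : Bool) (l b : ℕ) : gl c l b + 5 * CC c ^ (l - 1) ≤ evt c d l b := by
  unfold evt Ut Dt
  split_ifs <;> omega

lemma evt_le (hc : 10 ≤ c) {d : Bool} {l b : ℕ} (h : vld c d l b) :
    evt c d l b ≤ gl c l b + 2 * CC c ^ l + 7 * CC c ^ (l - 1) := by
  obtain ⟨hb, h12, hj, hl, -⟩ := h
  have hj' : ep c b + 8 < l := hj
  have h1 := Dt_le_cell (c := c) hc (l := l) (b := b) (by omega)
  unfold evt
  split_ifs
  · exact h1
  · exact (Ut_le_Dt hc hb (by omega) (by omega)).trans h1

lemma evt_top (hc : 10 ≤ c) {d : Bool} {l b : ℕ} (h : vld c d l b) (h0 : gl c l b = 0) :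
    d = false ∧ l = lg c b + 1 := by
  obtain ⟨hb, h12, hj, hl, hd⟩ := h
  have hb0 : b ≠ 0 := by rintro rfl; simp [lg] at h12
  have h1 : ¬ l ≤ lg c b := fun h => by
    have := gl_pos hb0 h
    omega
  constructor
  · cases d with
    | false => rfl
    | true => exact absurd (hd rfl) h1
  · omega

lemma evt_level (hc : 10 ≤ c) {d : Bool} {l b : ℕ} (h : vld c d l b) (h0 : 0 < gl c l b) :
    l ≤ lg c b := by
  obtain ⟨hb, h12, hj, hl, hd⟩ := h
  by_contra hn
  have : l = lg c b + 1 := by omega
  rw [this, gl_top hc] at h0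
  omega

/-- events of the same anchor -/
lemma evt_same (hc : 10 ≤ c) {d d' : Bool} {l l' b b' m : ℕ} (h : vld c d l b)
    (h' : vld c d' l' b') (h0 : 0 < gl c l b) (hg : gl c l b = gl c l' b')
    (hm : m ≤ Wd c b) (hm' : m ≤ Wd c b') (h1 : evt c d l b < evt c d' l' b' + m)
    (h2 : evt c d' l' b' < evt c d l b + m) : d = d' ∧ l = l' ∧ b = b' := by
  have e1 := evt_le hc h
  have e2 := evt_le hc h'
  have e3 := gl_le_evt c d l b
  have e4 := gl_le_evt c d' l' b'
  have l1 := evt_level hc h h0
  have l2 := evt_level hc h' (by rw [← hg]; exact h0)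
  obtain ⟨hb, h12, hj, hl, hd⟩ := h
  obtain ⟨hb', h12', hj', hl', hd'⟩ := h'
  have hW : Wd c b ≤ CC c ^ l := pow_le c (by unfold j0 at hj; omega)
  have hW' : Wd c b' ≤ CC c ^ l' := pow_le c (by unfold j0 at hj'; omega)
  have hj1 : ep c b + 8 < l := hj
  have hj1' : ep c b' + 8 < l' := hj'
  rcases Nat.lt_trichotomy l l' with hll | hll | hll
  · exfalso
    have p1 := pow_pred_le (c := c) hc (l := l) (by omega)
    have p2 : CC c ^ l ≤ CC c ^ (l' - 1) := pow_le c (by omega)
    have p3 := pow_pos' c l
    omega
  · subst hll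
    have hb0 : b ≠ 0 := by rintro rfl; simp [lg] at h12
    have hlg : lg c b = lg c b' := lg_cell' hc hb0 l1 hg
    have hWW : Wd c b = Wd c b' := by unfold Wd ep; rw [hlg]
    have key : ∀ x y, un c x = x → un c y = y → x < y → Wd c x ≤ y - x := by
      intro x y hx hy hxy
      have := unit_add_le hc hx hy hxy
      omega
    cases d with
    | false =>
      cases d' with
      | false =>
        refine ⟨rfl, rfl, ?_⟩
        simp only [evt, Bool.false_eq_true, if_false] at h1 h2
        rcases Nat.lt_trichotomy b b' with hbb | hbb | hbb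
        · exfalso
          have d1 := Ut_diff (c := c) (l := l) (by omega) hb (by omega) hg hWW hbb.le
          have d2 := key b b' hb hb' hbb
          have d3 := le_sl c (b' - b)
          omega
        · exact hbb
        · exfalso
          have d1 := Ut_diff (c := c) (l := l) (by omega) hb' (by omega) hg.symm hWW.symm hbb.le
          have d2 := key b' b hb' hb hbb
          have d3 := le_sl c (b - b')
          omega
      | true =>
        exfalso
        simp only [evt, Bool.false_eq_true, if_false, if_true] at h1 h2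
        have d1 := Ut_add_le_Dt hc hb (show 1 ≤ l by omega) (by omega) hb' (by omega) hg
        have d2 := le_sl c (Wd c b')
        omega
    | true =>
      cases d' with
      | false =>
        exfalso
        simp only [evt, Bool.false_eq_true, if_false, if_true] at h1 h2
        have d1 := Ut_add_le_Dt hc hb' (show 1 ≤ l by omega) (by omega) hb (by omega) hg.symm
        have d2 := le_sl c (Wd c b)
        omega
      | true =>
        refine ⟨rfl, rfl, ?_⟩
        simp only [evt, if_true] at h1 h2
        rcases Nat.lt_trichotomy b b' with hbb | hbb | hbb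
        · exfalso
          have d1 := Dt_diff (c := c) (l := l) (by omega) hb' (by omega) hg hbb.le
          have d2 := key b b' hb hb' hbb
          have d3 := le_sl c (b' - b)
          omega
        · exact hbb
        · exfalso
          have d1 := Dt_diff (c := c) (l := l) (by omega) hb (by omega) hg.symm hbb.le
          have d2 := key b' b hb' hb hbb
          have d3 := le_sl c (b - b')
          omega
  · exfalso
    have p1 := pow_pred_le (c := c) hc (l := l') (by omega)
    have p2 : CC c ^ l' ≤ CC c ^ (l - 1) := pow_le c (by omega)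
    have p3 := pow_pos' c l'
    omega

/-- events of the same class are separated -/
theorem evt_sep (hc : 10 ≤ c) {d d' : Bool} {l l' b b' m : ℕ} (h : vld c d l b)
    (h' : vld c d' l' b') (hk : cls c (gl c l b) = cls c (gl c l' b'))
    (hm : m ≤ Wd c b) (hm' : m ≤ Wd c b') (h1 : evt c d l b < evt c d' l' b' + m)
    (h2 : evt c d' l' b' < evt c d l b + m) : d = d' ∧ l = l' ∧ b = b' := by
  rcases Nat.eq_zero_or_pos (gl c l b) with h0 | h0
  · rcases Nat.eq_zero_or_pos (gl c l' b') with h0' | h0'
    · obtain ⟨rfl, hl⟩ := evt_top hc h h0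
      obtain ⟨rfl, hl'⟩ := evt_top hc h' h0'
      obtain ⟨hb, h12, -, -, -⟩ := h
      obtain ⟨hb', h12', -, -, -⟩ := h'
      simp only [evt, Bool.false_eq_true, if_false] at h1 h2
      rw [hl] at h1 h2 ⊢
      rw [hl'] at h1 h2 ⊢
      have hbb : b = b' := by
        rcases Nat.lt_trichotomy b b' with hbb | hbb | hbb
        · exfalso
          have d1 := Ut_top_diff hc (by omega) hb hbb.le
          have d2 := unit_add_le hc hb hb' hbb
          have d3 := le_sl c (b' + Wd c b' - (b + Wd c b))
          omega
        · exact hbb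
        · exfalso
          have d1 := Ut_top_diff hc (by omega) hb' hbb.le
          have d2 := unit_add_le hc hb' hb hbb
          have d3 := le_sl c (b + Wd c b - (b' + Wd c b'))
          omega
      exact ⟨rfl, by rw [hbb], hbb⟩
    · exfalso
      rw [h0] at hk
      unfold cls at hk
      rw [if_pos rfl, if_neg (by omega)] at hk
      omega
  · rcases Nat.eq_zero_or_pos (gl c l' b') with h0' | h0'
    · exfalso
      rw [h0'] at hk
      unfold cls at hk
      rw [if_pos rfl, if_neg (by omega)] at hk
      omega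
    · have key : ∀ {d d' : Bool} {l l' b b' : ℕ}, vld c d l b → vld c d' l' b' →
          cls c (gl c l b) = cls c (gl c l' b') → 0 < gl c l b → 0 < gl c l' b' →
          gl c l b < gl c l' b' → m ≤ Wd c b → evt c d' l' b' < evt c d l b + m → False := by
        intro d d' l l' b b' h h' hk h0 h0' hlt hm h2
        have s := cls_sep h0 h0' hk hlt
        have e1 := evt_le hc h
        have e4 := gl_le_evt c d' l' b'
        have l1 : l ≤ lv c (gl c l b) := le_lv hc h0 (dvd_gl c l b)
        have l2 := pow_le c l1
        obtain ⟨hb, h12, hj, hl, hd⟩ := h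
        have hj1 : ep c b + 8 < l := hj
        have hW : Wd c b ≤ CC c ^ l := pow_le c (by omega)
        have p1 := pow_pred_le (c := c) hc (l := l) (by omega)
        have p3 := pow_pos' c l
        generalize CC c ^ lv c (gl c l b) = q at *
        omega
      rcases Nat.lt_trichotomy (gl c l b) (gl c l' b') with hg | hg | hg
      · exact (key h h' hk h0 h0' hg hm h2).elim
      · exact evt_same hc h h' h0 hg hm hm' h1 h2
      · exact (key h' h hk.symm h0' h0 hg hm' h1).elim

/-- the event is done at the time `t` but not at the time `tm c t` -/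
def newE (c t : ℕ) (d : Bool) (l b : ℕ) : Prop :=
  ¬ evt c d l b ≤ opp c (cls c (gl c l b)) (tm c t) ∧ evt c d l b ≤ opp c (cls c (gl c l b)) t

lemma evt_le_seven (hc : 10 ≤ c) {d : Bool} {l b : ℕ} (h : vld c d l b) :
    evt c d l b ≤ 7 * b := by
  obtain ⟨hb, h12, hj, hl, hd⟩ := h
  have hj1 : ep c b + 8 < l := hj
  unfold evt
  split_ifs with h1
  · exact Dt_le hc (by omega) (by omega) (hd h1)
  · exact Ut_le hc (by omega) hl

lemma epo_tm (hc : 10 ≤ c) {t : ℕ} (ht : 9 ≤ epo c t) : epo c t ≤ epo c (tm c t) + 1 := by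
  have h1 := lt_tm c t
  have h2 := Gq_le c (epo c t)
  have h3 := Tq_small (c := c) (t := t) hc (by omega)
  have h4 : t ≤ 8 * tm c t := by omega
  exact epo_le_succ ((lg_mono (c := c) h4).trans (lg_eight hc (tm c t)))

/-- at most one event is carried out in a slot -/
theorem newE_unique (hc : 10 ≤ c) {t : ℕ} (ht : 9 ≤ epo c t) {d d' : Bool} {l l' b b' : ℕ}
    (h : vld c d l b) (h' : vld c d' l' b') (hn : newE c t d l b) (hn' : newE c t d' l' b') :
    d = d' ∧ l = l' ∧ b = b' := by
  have hE := epo_tm hc ht
  have main : ∀ {d : Bool} {l b : ℕ}, vld c d l b → newE c t d l b →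
      cls c (gl c l b) = scl c t ∧ evt c d l b ≤ sst c t ∧
      sst c t < evt c d l b + 2 * Tq c (epo c (tm c t)) ∧
      100000 * Tq c (epo c (tm c t)) ≤ Wd c b := by
    intro d l b h hn
    obtain ⟨n1, n2⟩ := hn
    have hne : opp c (cls c (gl c l b)) t ≠ opp c (cls c (gl c l b)) (tm c t) := by omega
    obtain ⟨a1, a2, -, a4⟩ := opp_tm_change hc (by omega) hne
    have al := alive hc (show 8 ≤ epo c (tm c t) by omega) (evt_le_seven hc h) (gl_le c l b) n1
    have w := Tq_le_Wd' hc (by omega) al
    have hb : gl c l b ≤ 8 * tm c t := by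
      have h1 := gl_le c l b
      have h2 : b ≤ evt c d l b := by
        unfold evt
        split_ifs
        · exact le_Dt c l b
        · exact le_Ut c l b
      have h3 := opp_le c (cls c (gl c l b)) t
      have h4 := lt_tm c t
      have h5 := Gq_le c (epo c t)
      have h6 := Tq_small (c := c) (t := t) hc (by omega)
      omega
    have o := lt_opp_anchor hc (f := gl c l b) (show 8 ≤ epo c (tm c t) by omega) hb
    refine ⟨a2, by omega, ?_, w⟩
    omega
  obtain ⟨a1, a2, a3, a4⟩ := main h hn
  obtain ⟨b1, b2, b3, b4⟩ := main h' hn'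
  have hT := Tq_pos c (epo c (tm c t))
  exact evt_sep hc h h' (a1.trans b1.symm) (m := 2 * Tq c (epo c (tm c t)))
    (by omega) (by omega) (by omega) (by omega)

end Pool.Agent.Helper29.E3
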