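import Mathlib
import Pool.Agent.Helper29.E3.Chg

/-!
# E-T (MP_12a1af_nt), phase 3: grids whose step depends on the epoch of the position
-/

namespace Pool.Agent.Helper29.E3

variable [EpFn]

open Pool.Agent.Helper29.ETK

variable {c : ℕ}

/-- the steps `L e` of a grid (used from the epoch `e0` on) -/
structure Grid (c : ℕ) (L : ℕ → ℕ) (e0 : ℕ) : Prop where
  pos : ∀ e, 0 < L e
  dvd : ∀ e, e0 ≤ e → L e ∣ L (e + 1)
  start : ∀ e, e0 ≤ e → L e ∣ CC c ^ (ms e)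

/-- start of the cell of the grid which contains `s` -/
def gs (c : ℕ) (L : ℕ → ℕ) (s : ℕ) : ℕ := L (ep c s) * (s / L (ep c s))

lemma ep_ge_iff (hc : 10 ≤ c) {e s : ℕ} (he : 0 < e) : e ≤ ep c s ↔ CC c ^ (ms e) ≤ s := by
  constructor
  · intro h
    have hs : s ≠ 0 := by
      rintro rfl
      simp [ep, lg, epf_zero] at h
      omega
    exact (pow_le c (le_epf_iff.mp h)).trans (lg_le c hs)
  · intro h
    exact le_epf_iff.mpr (le_lg hc h)

lemma ep_lt_iff (hc : 10 ≤ c) {e s : ℕ} (he : 0 < e) : ep c s < e ↔ s < CC c ^ (ms e) := by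
  have := ep_ge_iff (c := c) hc (s := s) he
  constructor
  · intro h
    by_contra h2
    have := this.mpr (by omega)
    omega
  · intro h
    by_contra h2
    have := this.mp (by omega)
    omega

lemma ep_eq_of (hc : 10 ≤ c) {e s : ℕ} (he : 0 < e) (h1 : CC c ^ (ms e) ≤ s)
    (h2 : s < CC c ^ (ms (e + 1))) : ep c s = e := by
  have h3 := (ep_ge_iff (c := c) hc (s := s) he).mpr h1
  have h4 := (ep_lt_iff (c := c) hc (s := s) (e := e + 1) (by omega)).mpr h2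
  omega

namespace Grid

variable {L : ℕ → ℕ} {e0 : ℕ}

lemma dvd_of_le (h : Grid c L e0) {e e' : ℕ} (he : e0 ≤ e) (hee : e ≤ e') : L e ∣ L e' := by
  induction e', hee using Nat.le_induction with
  | base => exact dvd_refl _
  | succ n hn ih => exact ih.trans (h.dvd n (by omega))

lemma le_of_le (h : Grid c L e0) {e e' : ℕ} (he : e0 ≤ e) (hee : e ≤ e') : L e ≤ L e' :=
  Nat.le_of_dvd (h.pos _) (h.dvd_of_le he hee)

lemma dvd_pow (h : Grid c L e0) {e l : ℕ} (he : e0 ≤ e) (hl : ms e ≤ l) : L e ∣ CC c ^ l :=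
  (h.start e he).trans (pow_dvd' c hl)

lemma gs_le (_h : Grid c L e0) (s : ℕ) : gs c L s ≤ s := Nat.mul_div_le s _

lemma lt_gs (h : Grid c L e0) (s : ℕ) : s < gs c L s + L (ep c s) := by
  unfold gs
  have := Nat.lt_mul_div_succ s (h.pos (ep c s))
  rw [mul_add, mul_one] at this
  exact this

lemma dvd_gs (_h : Grid c L e0) (s : ℕ) : L (ep c s) ∣ gs c L s := Dvd.intro _ rfl

lemma le_gs (h : Grid c L e0) {s x : ℕ} (hx : L (ep c s) ∣ x) (hxs : x ≤ s) : x ≤ gs c L s := by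
  obtain ⟨k, rfl⟩ := hx
  unfold gs
  apply Nat.mul_le_mul_left
  rw [Nat.le_div_iff_mul_le (h.pos _)]
  calc k * L (ep c s) = L (ep c s) * k := by ring
    _ ≤ s := hxs

lemma gs_eq_iff (_h : Grid c L e0) {s : ℕ} : gs c L s = s ↔ L (ep c s) ∣ s := by
  constructor
  · intro h1
    have : L (ep c s) ∣ gs c L s := Dvd.intro _ rfl
    rwa [h1] at this
  · intro h1
    exact Nat.mul_div_cancel' h1

lemma pow_le_gs (h : Grid c L e0) (hc : 10 ≤ c) {s : ℕ} (h0 : 0 < ep c s) (he : e0 ≤ ep c s) :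
    CC c ^ (ms (ep c s)) ≤ gs c L s :=
  h.le_gs (h.start _ he) ((ep_ge_iff hc h0).mp (le_refl _))

lemma ep_gs (h : Grid c L e0) (hc : 10 ≤ c) {s : ℕ} (h0 : 0 < ep c s) (he : e0 ≤ ep c s) :
    ep c (gs c L s) = ep c s := by
  have h1 := h.pow_le_gs hc h0 he
  have h2 := (ep_ge_iff hc (s := gs c L s) h0).mpr h1
  have h3 : ep c (gs c L s) ≤ ep c s := ep_mono (h.gs_le s)
  omega

lemma gs_gs (h : Grid c L e0) (hc : 10 ≤ c) {s : ℕ} (h0 : 0 < ep c s) (he : e0 ≤ ep c s) :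
    gs c L (gs c L s) = gs c L s := by
  rw [h.gs_eq_iff, h.ep_gs hc h0 he]
  exact h.dvd_gs s

/-- a cell ends before the next epoch begins -/
lemma add_le_pow (h : Grid c L e0) (hc : 10 ≤ c) {f : ℕ} (he : e0 ≤ ep c f)
    (hf : gs c L f = f) : f + L (ep c f) ≤ CC c ^ (ms (ep c f + 1)) := by
  have h1 := h.gs_eq_iff.mp hf
  have h2 := h.dvd_pow (l := ms (ep c f + 1)) he (ms_succ_lt _).le
  have h3 := (ep_lt_iff hc (s := f) (e := ep c f + 1) (by omega)).mp (by omega)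
  have h4 : L (ep c f) ∣ CC c ^ (ms (ep c f + 1)) - f := Nat.dvd_sub h2 h1
  have h5 := Nat.le_of_dvd (by omega) h4
  omega

lemma ep_of_mem (h : Grid c L e0) (hc : 10 ≤ c) {f s : ℕ} (h0 : 0 < ep c f) (he : e0 ≤ ep c f)
    (hf : gs c L f = f) (h1 : f ≤ s) (h2 : s < f + L (ep c f)) : ep c s = ep c f := by
  have h3 := h.add_le_pow hc he hf
  exact ep_eq_of hc h0 (((ep_ge_iff hc h0).mp (le_refl _)).trans h1) (by omega)

lemma gs_of_mem (h : Grid c L e0) (hc : 10 ≤ c) {f s : ℕ} (h0 : 0 < ep c f) (he : e0 ≤ ep c f)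
    (hf : gs c L f = f) (h1 : f ≤ s) (h2 : s < f + L (ep c f)) : gs c L s = f := by
  have h3 := h.ep_of_mem hc h0 he hf h1 h2
  have h4 := h.gs_eq_iff.mp hf
  have h5 := h.le_gs (s := s) (x := f) (by rw [h3]; exact h4) h1
  have h6 := h.gs_le s
  have h7 := h.dvd_gs s
  rw [h3] at h7
  obtain ⟨a, ha⟩ := h7
  obtain ⟨b, hb⟩ := h4
  have h8 : L (ep c f) * a < L (ep c f) * (b + 1) := by
    rw [← ha, mul_add, mul_one, ← hb]; omega
  have h9 : a < b + 1 := lt_of_mul_lt_mul_left h8 (Nat.zero_le _)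
  have h10 : L (ep c f) * b ≤ L (ep c f) * a := by rw [← ha, ← hb]; exact h5
  have h11 : b ≤ a := le_of_mul_le_mul_left h10 (h.pos _)
  have : a = b := by omega
  rw [ha, this, ← hb]

/-- the end of a cell is the start of a cell -/
lemma gs_next (h : Grid c L e0) (hc : 10 ≤ c) {f : ℕ} (he : e0 ≤ ep c f)
    (hf : gs c L f = f) : gs c L (f + L (ep c f)) = f + L (ep c f) := by
  have h3 := h.add_le_pow hc he hf
  rcases Nat.eq_or_lt_of_le h3 with h4 | h4
  · rw [h.gs_eq_iff]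
    have h5 : ep c (f + L (ep c f)) = ep c f + 1 := by
      rw [h4]
      apply ep_eq_of hc (by omega) (le_refl _)
      exact Nat.pow_lt_pow_right (one_lt_CC hc) (ms_succ_lt _)
    rw [h5]
    conv_rhs => rw [h4]
    exact h.start _ (by omega)
  · rw [h.gs_eq_iff]
    have h5 : ep c (f + L (ep c f)) = ep c f := by
      have h6 := (ep_lt_iff hc (s := f + L (ep c f)) (e := ep c f + 1) (by omega)).mpr h4
      have h7 : ep c f ≤ ep c (f + L (ep c f)) := ep_mono (by omega)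
      omega
    rw [h5]
    exact Dvd.dvd.add (h.gs_eq_iff.mp hf) (dvd_refl _)

lemma add_le_of_lt (h : Grid c L e0) (hc : 10 ≤ c) {f f' : ℕ} (h0 : 0 < ep c f)
    (he : e0 ≤ ep c f) (hf : gs c L f = f) (hf' : gs c L f' = f') (hlt : f < f') :
    f + L (ep c f) ≤ f' := by
  by_contra hn
  have := h.gs_of_mem hc h0 he hf hlt.le (by omega)
  omega

lemma gs_mono (h : Grid c L e0) (hc : 10 ≤ c) {s s' : ℕ} (h0 : 0 < ep c s) (he : e0 ≤ ep c s)
    (hss : s ≤ s') : gs c L s ≤ gs c L s' := by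
  have hep : ep c s ≤ ep c s' := ep_mono hss
  have h1 := h.gs_gs hc h0 he
  have h1' := h.gs_gs hc (s := s') (by omega) (by omega)
  by_contra hn
  have e1 := h.ep_gs hc h0 he
  have e2 := h.ep_gs hc (s := s') (by omega) (by omega)
  have h2 := h.add_le_of_lt hc (f := gs c L s') (f' := gs c L s) (by omega) (by omega) h1' h1
    (by omega)
  rw [e2] at h2
  have h3 := h.lt_gs s'
  have h4 := h.gs_le s
  omega

/-- the previous cell -/
lemma prev (h : Grid c L e0) (hc : 10 ≤ c) {f : ℕ} (h0 : 0 < ep c (f - 1))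
    (he : e0 ≤ ep c (f - 1)) (hf : gs c L f = f) (hpos : 0 < f) :
    gs c L (f - 1) + L (ep c (f - 1)) = f := by
  have h1 := h.gs_gs hc h0 he
  have e1 := h.ep_gs hc h0 he
  have h2 := h.gs_le (f - 1)
  have h3 := h.lt_gs (f - 1)
  have h4 := h.add_le_of_lt hc (f := gs c L (f - 1)) (f' := f) (by omega) (by omega) h1 hf
    (by omega)
  rw [e1] at h4
  omega

/-- a coarser grid -/
lemma of_coarse {L' : ℕ → ℕ} (h : Grid c L e0) (h' : Grid c L' e0)
    (hLL : ∀ e, e0 ≤ e → L e ∣ L' e) {f : ℕ} (he : e0 ≤ ep c f) (hf : gs c L' f = f) :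
    gs c L f = f := by
  rw [h.gs_eq_iff]
  exact (hLL _ he).trans (h'.gs_eq_iff.mp hf)

lemma gs_coarse_le {L' : ℕ → ℕ} (h : Grid c L e0) (h' : Grid c L' e0)
    (hLL : ∀ e, e0 ≤ e → L e ∣ L' e) {s : ℕ} (he : e0 ≤ ep c s) :
    gs c L' s ≤ gs c L s :=
  h.le_gs ((hLL _ he).trans (h'.dvd_gs s)) (h'.gs_le s)

lemma gs_add_coarse {L' : ℕ → ℕ} (h : Grid c L e0) (h' : Grid c L' e0)
    (hLL : ∀ e, e0 ≤ e → L e ∣ L' e) {s : ℕ} (he : e0 ≤ ep c s) :
    gs c L s + L (ep c s) ≤ gs c L' s + L' (ep c s) := by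
  have h1 : L (ep c s) ∣ gs c L' s + L' (ep c s) :=
    Dvd.dvd.add ((hLL _ he).trans (h'.dvd_gs s)) (hLL _ he)
  have h2 := h.dvd_gs s
  have h3 := h'.lt_gs s
  have h4 := h.gs_le s
  have h5 := Nat.dvd_sub h1 h2
  have h6 := Nat.le_of_dvd (by omega) h5
  omega

end Grid

end Pool.Agent.Helper29.E3
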