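import Mathlib
import Pool.Agent.Helper29.E3.Sizes

/-!
# E-T (MP_12a1af_nt), phase 3: slots and close times
-/

namespace Pool.Agent.Helper29.E3

variable [EpFn]

open Pool.Agent.Helper29.ETK

variable {c : ℕ}

/-- the same opportunities -/
def sameO (c t t' : ℕ) : Prop := ∀ k, opp c k t = opp c k t'

lemma sameO.symm {t t' : ℕ} (h : sameO c t t') : sameO c t' t := fun k => (h k).symm

lemma exU_congr {t t' l b : ℕ} (h : sameO c t t') : exU c t l b ↔ exU c t' l b := by
  unfold exU; rw [h]

lemma exD_congr {t t' l b : ℕ} (h : sameO c t t') : exD c t l b ↔ exD c t' l b := by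
  unfold exD; rw [h]

lemma fin_congr {t t' b : ℕ} (h : sameO c t t') : fin c t b ↔ fin c t' b := exU_congr h

lemma lev_le_of_sameO {t t' b : ℕ} (h : sameO c t t') : lev c t b ≤ lev c t' b := by
  unfold lev
  by_cases hf : fin c t b
  · rw [if_pos hf, if_pos ((fin_congr h).mp hf)]
  · rw [if_neg hf, if_neg (fun h1 => hf ((fin_congr h).mpr h1))]
    apply max_le_max (le_refl _)
    exact Nat.findGreatest_mono_left
      (fun l (hl : j0 c b < l ∧ exU c t l b) => ⟨hl.1, (exU_congr h).mp hl.2⟩) _

lemma lev_congr {t t' b : ℕ} (h : sameO c t t') : lev c t b = lev c t' b :=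
  le_antisymm (lev_le_of_sameO h) (lev_le_of_sameO h.symm)

lemma isP_congr {t t' b : ℕ} (h : sameO c t t') : isP c t b ↔ isP c t' b := by
  unfold isP
  rw [lev_congr h, fin_congr h, exD_congr h]

lemma ga_congr {t t' b : ℕ} (h : sameO c t t') : ga c t b = ga c t' b := by
  unfold ga; rw [lev_congr h]

lemma va_congr {t t' b : ℕ} (h : sameO c t t') : va c t b = va c t' b := by
  unfold va; rw [lev_congr h]


lemma sst_eq_of (hc : 10 ≤ c) {t x : ℕ} (hx : 8 * Gq c (epo c t) ∣ x) (h1 : x ≤ t)
    (h2 : t < x + 8 * Gq c (epo c t)) : sst c t = x ∧ t % (8 * Gq c (epo c t)) = t - x := by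
  have hG : 0 < 8 * Gq c (epo c t) := by have := Gq_pos c (epo c t); omega
  obtain ⟨m, rfl⟩ := hx
  have h3 : t % (8 * Gq c (epo c t)) = t - 8 * Gq c (epo c t) * m := by
    generalize 8 * Gq c (epo c t) = g at *
    obtain ⟨r, hr⟩ : ∃ r, r = t - g * m := ⟨_, rfl⟩
    have e : t = r + g * m := by omega
    rw [← hr, e, Nat.add_mul_mod_self_left]
    exact Nat.mod_eq_of_lt (by omega)
  refine ⟨?_, h3⟩
  unfold sst
  rw [h3]
  omega

lemma sameO_of_slot (hc : 10 ≤ c) {K K' : ℕ} (hE : 4 ≤ epo c K) (h1 : K' ≤ K)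
    (h2 : sst c K ≤ K') : sameO c K' K := by
  intro k
  have h3 := opp_mono c k h1
  by_contra hne
  have h4 : opp c k K ≠ 0 := by omega
  have h5 := opp_isOpp h4
  have h6 := opp_le c k K
  have h7 : K' < opp c k K := by
    by_contra h8
    have := le_opp h5 (show opp c k K ≤ K' by omega)
    omega
  have h8 := isOpp_slot hc hE h5 (by omega) h6
  omega

/-- the two cases for close times -/
lemma near_cases (hc : 10 ≤ c) {K K' : ℕ} (hE : 10 ≤ epo c K) (h1 : K' ≤ K)
    (h2 : K < K' + gth c K) :
    epo c K ≤ epo c K' + 1 ∧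
    ((sameO c K' K ∧ (ph c K' = ph c K ∨ ph c K = ph c K' + 1) ∧
      (ph c K < 3 → tm c K' = tm c K) ∧ sst c K' = sst c K ∧ epo c K' = epo c K) ∨
    (7 ≤ ph c K' ∧ ph c K = 0 ∧ sameO c K' (tm c K) ∧ K' < sst c K)) := by
  set E := epo c K with hEd
  have hG0 := Gq_pos c E
  have hg : gth c K = Gq c (E - 1) := rfl
  have hgG : Gq c (E - 1) ≤ Gq c E := Gq_mono hc (by omega) (by omega)
  have hTG := Gq_le c E
  have hTs := Tq_small (c := c) (t := K) hc (by omega)
  rw [← hEd] at hTs
  have hE' : E ≤ epo c K' + 1 := by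
    have h4 : K ≤ 8 * K' := by omega
    exact epo_le_succ ((lg_mono (c := c) h4).trans (lg_eight hc K'))
  refine ⟨hE', ?_⟩
  have hs1 := sst_le c K
  have hs2 := lt_sst c K
  have hs3 := dvd_sst c K
  rw [← hEd] at hs2 hs3
  rcases Nat.lt_or_ge K' (sst c K) with h3 | h3
  · -- the previous slot
    right
    set x := sst c K - 1 with hx
    have hx1 : K' ≤ x := by omega
    have hepx : E ≤ epo c x + 1 := hE'.trans (by
      have := epo_mono (c := c) hx1
      omega)
    have hepx2 : epo c x ≤ E := epo_mono (by omega)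
    have hGx : Gq c (E - 1) ≤ Gq c (epo c x) := Gq_mono hc (by omega) (by omega)
    have hGx0 := Gq_pos c (epo c x)
    have hdx : 8 * Gq c (epo c x) ∣ sst c K :=
      (Nat.mul_dvd_mul_left 8 (Gq_dvd_of_le hc (by omega) hepx2)).trans hs3
    have hdx2 : 8 * Gq c (epo c x) ∣ x + 1 - 8 * Gq c (epo c x) := by
      have : x + 1 = sst c K := by omega
      rw [this]
      exact Nat.dvd_sub hdx (dvd_refl _)
    have hge : 8 * Gq c (epo c x) ≤ x + 1 := by
      have : x + 1 = sst c K := by omega
      rw [this]
      exact Nat.le_of_dvd (by omega) hdx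
    obtain ⟨s1, s2⟩ := sst_eq_of hc hdx2 (by omega) (by omega)
    have hK'x : sst c x ≤ K' := by omega
    have hepK' : epo c K' = epo c x := by
      have a := epo_mono (c := c) hK'x
      rw [epo_sst hc (show 4 ≤ epo c x by omega)] at a
      have b := epo_mono (c := c) hx1
      omega
    have hdK' : 8 * Gq c (epo c K') ∣ x + 1 - 8 * Gq c (epo c x) := by
      rw [hepK']; exact hdx2
    obtain ⟨t1, t2⟩ := sst_eq_of hc hdK' (by omega) (by rw [hepK']; omega)
    have hphK' : 7 ≤ ph c K' := by
      unfold ph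
      rw [t2, hepK', Nat.le_div_iff_mul_le hGx0]
      omega
    have hphK : ph c K = 0 := by
      unfold ph
      rw [← hEd]
      have e : K % (8 * Gq c E) = K - sst c K := by
        unfold sst
        rw [← hEd]
        have := Nat.mod_le K (8 * Gq c E)
        omega
      rw [e, Nat.div_eq_of_lt]
      omega
    refine ⟨hphK', hphK, ?_, h3⟩
    have e : tm c K = x := by
      unfold tm
      rw [if_pos (by omega)]
    rw [e]
    exact sameO_of_slot hc (by omega) hx1 hK'x
  · left
    have hepK' : epo c K' = E := by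
      have a := epo_mono (c := c) h3
      rw [epo_sst hc (show 4 ≤ epo c K by omega)] at a
      have b := epo_mono (c := c) h1
      omega
    have hdK' : 8 * Gq c (epo c K') ∣ sst c K := by rw [hepK']; exact hs3
    obtain ⟨t1, t2⟩ := sst_eq_of hc hdK' h3 (by rw [hepK']; omega)
    have e : K % (8 * Gq c E) = K - sst c K := by
      unfold sst
      rw [← hEd]
      have := Nat.mod_le K (8 * Gq c E)
      omega
    refine ⟨sameO_of_slot hc (by omega) h1 h3, ?_, ?_, t1, hepK'⟩
    · have p1 : ph c K' = (K' - sst c K) / Gq c E := by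
        unfold ph
        rw [t2, hepK']
      have p2 : ph c K = (K - sst c K) / Gq c E := by
        unfold ph
        rw [← hEd, e]
      have p3 : ph c K' ≤ ph c K := by
        rw [p1, p2]
        exact Nat.div_le_div_right (by omega)
      have p4 : ph c K ≤ ph c K' + 1 := by
        rw [p1, p2]
        calc (K - sst c K) / Gq c E ≤ ((K' - sst c K) + Gq c E) / Gq c E :=
              Nat.div_le_div_right (by omega)
          _ = _ := Nat.add_div_right _ hG0
      omega
    · intro h4
      have h5 : ph c K' < 3 := by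
        have p1 : ph c K' = (K' - sst c K) / Gq c E := by
          unfold ph
          rw [t2, hepK']
        have p2 : ph c K = (K - sst c K) / Gq c E := by
          unfold ph
          rw [← hEd, e]
        have p3 : ph c K' ≤ ph c K := by
          rw [p1, p2]
          exact Nat.div_le_div_right (by omega)
        omega
      unfold tm
      rw [if_pos h4, if_pos h5, t1]


end Pool.Agent.Helper29.E3
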