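import Mathlib
import Pool.Agent.Helper29.E3.Slots

/-!
# E-T (MP_12a1af_nt), phase 3: the times of the merges, the first unit which is not merged
-/

namespace Pool.Agent.Helper29.E3

variable [EpFn]

open Pool.Agent.Helper29.ETK

variable {c : ℕ}

lemma un_mono (hc : 10 ≤ c) {s s' : ℕ} (h : s ≤ s') : un c s ≤ un c s' := by
  by_contra hn
  have h1 := unit_add_le hc (un_un hc s') (un_un hc s) (by omega : un c s' < un c s)
  rw [Wd_un hc] at h1
  have h2 := lt_un c s'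
  have h3 := un_le c s
  omega

lemma eq_of_mem_unit (hc : 10 ≤ c) {b s : ℕ} (hb : un c b = b) (h1 : b ≤ s)
    (h2 : s < b + Wd c b) : un c s = b := by
  have h3 := un_mono hc h1
  rw [hb] at h3
  by_contra hne
  have h4 := unit_add_le hc hb (un_un hc s) (by omega)
  have := un_le c s
  omega

/-- the end of a unit is the start of a unit -/
lemma un_end (hc : 10 ≤ c) {b : ℕ} (hb : un c b = b) : un c (b + Wd c b) = b + Wd c b :=
  (gridU c hc).gs_next hc (Nat.zero_le _) hb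

lemma epo_le_ep (hc : 10 ≤ c) {b x : ℕ} (h1 : b ≤ x) (h2 : x ≤ 8 * b) :
    epo c x ≤ ep c b ∧ ep c b ≤ epo c x + 1 := by
  have h3 := lg_mono (c := c) h1
  have h4 := (lg_mono (c := c) h2).trans (lg_eight hc b)
  exact ⟨epo_le_ep_of_lg h4, ep_le_epo_succ_of_lg h3⟩

/-- a double slot is in one epoch -/
lemma epo_slot2 (hc : 10 ≤ c) {x t : ℕ} (hE : 4 ≤ epo c x) (hd : 16 * Gq c (epo c x) ∣ x)
    (h1 : x ≤ t) (h2 : t < x + 16 * Gq c (epo c x)) : epo c t = epo c x := by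
  have hlow := epo_lower (c := c) (t := x) rfl (by omega)
  have hup := epo_upper hc (t := x) rfl (by omega)
  have h3 := Gq_dvd_pow hc hE (l := ms (epo c x + 1) + 1)
    (by have := le_ms (epo c x + 1); omega)
  have h4 := Nat.le_of_dvd (by omega) (Nat.dvd_sub h3 hd)
  exact epo_eq hc (by omega) (by omega)

lemma ph_eq {t x : ℕ} (h : sst c t = x) : ph c t = (t - x) / Gq c (epo c t) := by
  have h1 := Nat.mod_le t (8 * Gq c (epo c t))
  unfold ph
  unfold sst at h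
  congr 1
  omega

lemma slot_lo (hc : 10 ≤ c) {x t : ℕ} (hE : 4 ≤ epo c x) (hd : 16 * Gq c (epo c x) ∣ x)
    (h1 : x ≤ t) (h2 : t < x + 8 * Gq c (epo c x)) :
    epo c t = epo c x ∧ sst c t = x ∧ ph c t = (t - x) / Gq c (epo c x) := by
  have h3 := epo_slot2 hc hE hd h1 (by omega)
  have h4 : sst c t = x := by
    refine (sst_eq_of hc ?_ h1 (by rw [h3]; exact h2)).1
    rw [h3]
    exact (Nat.mul_dvd_mul_right (by norm_num) _).trans hd
  exact ⟨h3, h4, by rw [ph_eq h4, h3]⟩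

lemma slot_hi (hc : 10 ≤ c) {x t : ℕ} (hE : 4 ≤ epo c x) (hd : 16 * Gq c (epo c x) ∣ x)
    (h1 : x + 8 * Gq c (epo c x) ≤ t) (h2 : t < x + 16 * Gq c (epo c x)) :
    epo c t = epo c x ∧ sst c t = x + 8 * Gq c (epo c x) ∧
      ph c t = (t - (x + 8 * Gq c (epo c x))) / Gq c (epo c x) := by
  have h3 := epo_slot2 hc hE hd (by omega) h2
  have h4 : sst c t = x + 8 * Gq c (epo c x) := by
    refine (sst_eq_of hc ?_ h1 (by rw [h3]; omega)).1
    rw [h3]
    exact Dvd.dvd.add ((Nat.mul_dvd_mul_right (by norm_num) _).trans hd) (dvd_refl _)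
  exact ⟨h3, h4, by rw [ph_eq h4, h3]⟩

/-! ### the times of the merges -/

/-- facts about the time `b + 3 Wd c b` -/
lemma unit_facts (hc : 10 ≤ c) {b : ℕ} (hb : un c b = b) (h8 : 8 ≤ ep c b) :
    epo c (b + 3 * Wd c b) ≤ ep c b ∧ ep c b ≤ epo c (b + 3 * Wd c b) + 1 ∧
    16 * Gq c (epo c (b + 3 * Wd c b)) ∣ b + 3 * Wd c b ∧
    100000 * (1024 * Gq c (epo c (b + 3 * Wd c b))) ≤ Wd c b ∧ 1024 * Wd c b ≤ b := by
  have h1 := Wd_le hc (b := b) (by have := ep_le_lg c b; omega)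
  obtain ⟨h2, h3⟩ := epo_le_ep hc (b := b) (x := b + 3 * Wd c b) (by omega) (by omega)
  have h4 := Gq_dvd_pow hc (E := epo c (b + 3 * Wd c b)) (l := ep c b) (by omega) (by omega)
  have h5 := Gq_le_pow hc (E := epo c (b + 3 * Wd c b)) (l := ep c b) (by omega) h2
  have h6 : 1024 * Gq c (epo c (b + 3 * Wd c b)) ≤ CC c * Gq c (epo c (b + 3 * Wd c b)) :=
    Nat.mul_le_mul_right _ (CC_ge hc)
  refine ⟨h2, h3, ?_, ?_, h1⟩
  · exact Dvd.dvd.add (h4.trans (un_eq_iff.mp hb)) (h4.mul_left 3)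
  · exact le_trans (Nat.mul_le_mul_left _ h6) h5

lemma lt_tU (c j b : ℕ) : b + 3 * Wd c b < tU c j b := by
  unfold tU
  have := Gq_pos c (epo c (b + 3 * Wd c b))
  have : 0 < (12 + j) * Gq c (epo c (b + 3 * Wd c b)) := by positivity
  omega

lemma tU_le (hc : 10 ≤ c) {b j : ℕ} (hb : un c b = b) (h8 : 8 ≤ ep c b) (hj : j ≤ 3) :
    tU c j b + 1000000 * Gq c (epo c (b + 3 * Wd c b)) ≤ b + 4 * Wd c b := by
  obtain ⟨-, -, -, h4, -⟩ := unit_facts hc hb h8
  unfold tU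
  have : (12 + j) * Gq c (epo c (b + 3 * Wd c b)) ≤ 15 * Gq c (epo c (b + 3 * Wd c b)) :=
    Nat.mul_le_mul_right _ (by omega)
  omega

lemma tU_mono (c b : ℕ) {j j' : ℕ} (h : j ≤ j') : tU c j b ≤ tU c j' b := by
  unfold tU
  have := Nat.mul_le_mul_right (Gq c (epo c (b + 3 * Wd c b))) (show 12 + j ≤ 12 + j' by omega)
  omega

/-- consecutive units -/
lemma tU_lt (hc : 10 ≤ c) {b b' j j' : ℕ} (hb : un c b = b) (hb' : un c b' = b')
    (h8 : 8 ≤ ep c b) (hbb : b < b') (hj : j ≤ 3) :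
    tU c j b + 1000000 * Gq c (epo c (b + 3 * Wd c b)) < tU c j' b' := by
  have h1 := tU_le hc hb h8 hj
  have h2 := unit_add_le hc hb hb' hbb
  have h3 := lt_tU c j' b'
  have h4 := Wd_mono (c := c) hbb.le
  omega

lemma Gq_le_self (c : ℕ) {x : ℕ} (hx : 0 < x) : Gq c (epo c x) ≤ x := by
  have h1 : Gq c (epo c x) ≤ CC c ^ epo c x := by
    unfold Gq
    rw [CC_pow]
    apply Nat.pow_le_pow_right (by norm_num)
    have : c * (epo c x - 1) ≤ c * epo c x := Nat.mul_le_mul_left _ (by omega)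
    omega
  have h2 : CC c ^ epo c x ≤ CC c ^ lg c x :=
    pow_le c (by unfold epo; have := epf_le (lg c x - 1); omega)
  exact h1.trans (h2.trans (lg_le c (by omega)))

/-- the small units are merged -/
lemma tU_small (hc : 10 ≤ c) {b t j : ℕ} (ht : 9 ≤ epo c t) (h8 : ep c b < 8) (hj : j ≤ 3) :
    tU c j b ≤ t := by
  have h1 := (ep_lt_iff hc (s := b) (e := 8) (by norm_num)).mp h8
  have h2 := epo_lower (c := c) (t := t) rfl (by omega)
  rw [ms_small (by norm_num)] at h1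
  have h3 : Wd c b ≤ CC c ^ (2 * 8) := pow_le c (by omega)
  have h4 := Wd_pos c b
  have h5 := Gq_le_self c (x := b + 3 * Wd c b) (by omega)
  have h6 : CC c ^ 17 ≤ CC c ^ (ms (epo c t) + 1) :=
    pow_le c (by have := add_eight_le_ms (e := epo c t) (by omega); omega)
  have h7 := pow_pred_le (c := c) hc (l := 17) (by omega)
  unfold tU
  have h8 : (12 + j) * Gq c (epo c (b + 3 * Wd c b)) ≤ 15 * Gq c (epo c (b + 3 * Wd c b)) :=
    Nat.mul_le_mul_right _ (by omega)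
  simp only [show 17 - 1 = 16 by norm_num] at h7
  simp only [show 2 * 8 = 16 by norm_num] at h1 h3
  omega

/-! ### the first unit which is not merged -/

lemma wb_nonempty (hc : 10 ≤ c) (t : ℕ) : {b | un c b = b ∧ t < tU c 3 b}.Nonempty := by
  refine ⟨CC c ^ t, ?_, ?_⟩
  · rw [un_eq_iff]
    apply Wd_dvd_pow
    have h1 : lg c (CC c ^ t) = t := lg_eq hc (le_refl _)
      (Nat.pow_lt_pow_right (one_lt_CC hc) (by omega))
    unfold ep
    rw [h1]
    exact epf_le t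
  · have h1 : t < CC c ^ t := Nat.lt_pow_self (one_lt_CC hc)
    have := lt_tU c 3 (CC c ^ t)
    omega

lemma wb_spec (hc : 10 ≤ c) (t : ℕ) : un c (wb c t) = wb c t ∧ t < tU c 3 (wb c t) :=
  Nat.sInf_mem (wb_nonempty hc t)

/-- the units below `wb` are merged -/
lemma tU_of_lt_wb {t b : ℕ} (hb : un c b = b) (h : b < wb c t) : tU c 3 b ≤ t := by
  have := Nat.notMem_of_lt_sInf h
  simp only [Set.mem_setOf_eq, not_and, not_lt] at this
  exact this hb

lemma wb_le_of {t b : ℕ} (hb : un c b = b) (h : t < tU c 3 b) : wb c t ≤ b :=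
  Nat.sInf_le ⟨hb, h⟩

lemma eight_le_ep_wb (hc : 10 ≤ c) {t : ℕ} (ht : 9 ≤ epo c t) : 8 ≤ ep c (wb c t) := by
  by_contra hn
  have := tU_small hc ht (show ep c (wb c t) < 8 by omega) (le_refl 3)
  have := (wb_spec hc t).2
  omega

/-- a unit is merged iff it is below `wb` -/
lemma lt_wb_iff (hc : 10 ≤ c) {t b : ℕ} (ht : 9 ≤ epo c t) (hb : un c b = b) :
    b < wb c t ↔ tU c 3 b ≤ t := by
  constructor
  · exact tU_of_lt_wb hb
  · intro h
    by_contra hn
    have h1 := (wb_spec hc t).2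
    rcases Nat.eq_or_lt_of_le (show wb c t ≤ b by omega) with h2 | h2
    · rw [h2] at h1
      omega
    · have := tU_lt hc (wb_spec hc t).1 hb (eight_le_ep_wb hc ht) h2 (le_refl 3) (j' := 3)
      omega

lemma lt_wb_add (hc : 10 ≤ c) {t : ℕ} (ht : 9 ≤ epo c t) : t < wb c t + 4 * Wd c (wb c t) := by
  have h1 := tU_le hc (wb_spec hc t).1 (eight_le_ep_wb hc ht) (le_refl 3)
  have h2 := (wb_spec hc t).2
  omega

lemma wb_pos (hc : 10 ≤ c) {t : ℕ} (ht : 9 ≤ epo c t) : 0 < wb c t := by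
  have h := eight_le_ep_wb hc ht
  rcases Nat.eq_zero_or_pos (wb c t) with h0 | h0
  · rw [h0] at h
    simp [ep, lg, epf_zero] at h
  · exact h0

/-- the unit below `wb` -/
lemma wb_prev (hc : 10 ≤ c) {t : ℕ} (ht : 9 ≤ epo c t) :
    un c (wb c t - 1) + Wd c (wb c t - 1) = wb c t ∧ tU c 3 (un c (wb c t - 1)) ≤ t := by
  have h0 := wb_pos hc ht
  have h1 := un_le c (wb c t - 1)
  have h2 := unit_add_le hc (un_un hc (wb c t - 1)) (wb_spec hc t).1 (by omega)
  rw [Wd_un hc] at h2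
  have h3 := lt_un c (wb c t - 1)
  exact ⟨by omega, tU_of_lt_wb (un_un hc _) (by omega)⟩

lemma wb_add_le (hc : 10 ≤ c) {t : ℕ} (ht : 9 ≤ epo c t) :
    wb c t + 2 * Wd c (wb c t - 1) < t := by
  obtain ⟨h1, h2⟩ := wb_prev hc ht
  have h3 := lt_tU c 3 (un c (wb c t - 1))
  rw [Wd_un hc] at h3
  omega

lemma wb_le (hc : 10 ≤ c) {t : ℕ} (ht : 9 ≤ epo c t) : wb c t ≤ t := by
  have := wb_add_le hc ht
  omega

lemma wb_near_t (hc : 10 ≤ c) {t : ℕ} (ht : 9 ≤ epo c t) : t < 2 * wb c t := by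
  have h1 := lt_wb_add hc ht
  obtain ⟨-, -, -, -, h2⟩ := unit_facts hc (wb_spec hc t).1 (eight_le_ep_wb hc ht)
  omega

lemma ep_wb (hc : 10 ≤ c) {t : ℕ} (ht : 9 ≤ epo c t) :
    epo c t ≤ ep c (wb c t) ∧ ep c (wb c t) ≤ epo c t + 1 := by
  have h1 := wb_near_t hc ht
  have h2 := ep_of_near hc (s := wb c t) (by omega) (wb_le hc ht) (by omega)
  exact ⟨h2.1, h2.2.1⟩

lemma lg_wb (hc : 10 ≤ c) {t : ℕ} (ht : 9 ≤ epo c t) : 18 ≤ lg c (wb c t) := by
  have h1 := (ep_wb hc ht).1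
  have h2 := ms_ep_le c (wb c t)
  have h3 := ms_mono (show 9 ≤ ep c (wb c t) by omega)
  rw [ms_small (by norm_num)] at h3
  omega

lemma wb_mono (hc : 10 ≤ c) {t t' : ℕ} (h : t ≤ t') : wb c t ≤ wb c t' :=
  wb_le_of (wb_spec hc t').1 (lt_of_le_of_lt h (wb_spec hc t').2)

/-- ends of cells below `wb` -/
lemma cell_le_wb (hc : 10 ≤ c) {t b l : ℕ} (ht : 9 ≤ epo c t) (hb16 : 16 ≤ lg c b)
    (hbw : b < wb c t) (hl2 : l ≤ lg c b)
    (h : l = ep c b ∨ (j0 c b < l ∧ gl c l b + 4 * CC c ^ (l - 1) + CC c ^ l ≤ t)) :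
    gl c l b + CC c ^ l ≤ wb c t := by
  have hb0 : b ≠ 0 := by rintro rfl; simp [lg] at hb16
  have hw := wb_spec hc t
  rcases h with h | ⟨hj, h⟩
  · have e1 : gl c l b = un c b := by rw [h]; rfl
    have e2 : CC c ^ l = Wd c b := by rw [h]; rfl
    rw [e1, e2, ← Wd_un hc b]
    exact unit_add_le hc (un_un hc b) hw.1 (lt_of_le_of_lt (un_le c b) hbw)
  · by_contra hn
    have h1 := gl_le c l b
    have e1 : gl c l (wb c t) = gl c l b := gl_eq (dvd_gl c l b) (by omega) (by omega)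
    have e2 : lg c b = lg c (wb c t) := lg_cell' hc hb0 hl2 e1.symm
    have e3 : ep c (wb c t) = ep c b := by unfold ep; rw [e2]
    have e4 : Wd c (wb c t) = Wd c b := by unfold Wd; rw [e3]
    unfold j0 at hj
    have h2 := un_add_le hw.1 (l := l) (by omega)
    rw [e1, e4] at h2
    have h3 := lt_wb_add hc ht
    rw [e4] at h3
    have h4 : Wd c b ≤ CC c ^ (l - 1) := pow_le c (by omega)
    omega

end Pool.Agent.Helper29.E3
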