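import Mathlib
import Pool.Agent.Helper29.E3.KidB
import Pool.Agent.Helper29.ETK.KidC

/-!
# E-T (MP_12a1af_nt), phase 3: sizes, cells in transition, close times
-/

namespace Pool.Agent.Helper29.E3

variable [EpFn]

open Pool.Agent.Helper29.ETK

open Pool.Agent.ETS (IsRest)

variable {c : ℕ}

lemma tm_ge_half (hc : 10 ≤ c) {t : ℕ} (ht : 9 ≤ epo c t) : t ≤ 2 * tm c t := by
  have h1 := lt_tm c t
  have h2 := Gq_le c (epo c t)
  have h3 := Tq_small (c := c) (t := t) hc (by omega)
  omega

lemma fin_of_le (hc : 10 ≤ c) {t b : ℕ} (ht : 9 ≤ epo c t) (h : 16 * b ≤ t) :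
    fin c (tm c t) b := by
  have hE := epo_tm hc ht
  have := tm_ge_half hc ht
  exact fin_of_small hc (by omega) (by omega)

lemma kid_small (hc : 10 ≤ c) {t s : ℕ} (ht : 9 ≤ epo c t) (h : 16 * s ≤ t) :
    kid c t s = kidP c t 0 := by
  have hf : fin c (tm c t) (un c s) := fin_of_le hc ht (by have := un_le c s; omega)
  have hP : isP c (tm c t) (un c s) := Or.inl hf
  rw [kid_of_isM (Or.inl hP)]
  unfold gM
  rw [if_pos hP, ga_of_fin hc hf]

/-- the kind is constant on a unit -/
lemma kid_un (hc : 10 ≤ c) (t s : ℕ) : kid c t (un c s) = kid c t s := by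
  rw [kid_eq, kid_eq, un_un hc]

lemma un_of_ne (hc : 10 ≤ c) {t x : ℕ} (hx : 0 < x) (h : kid c t (x - 1) ≠ kid c t x) :
    un c x = x ∧ un c (x - 1) + Wd c (x - 1) = x := by
  have h1 : un c x = x := by
    by_contra hne
    have h2 := un_le c x
    apply h
    rw [← kid_un hc t (x-1), ← kid_un hc t x]
    congr 1
    have h3 := un_mono hc (show un c x ≤ x - 1 by omega)
    rw [un_un hc] at h3
    have h4 := un_mono hc (show x - 1 ≤ x by omega)
    omega
  refine ⟨h1, ?_⟩
  have h2 := un_le c (x-1)
  have h3 := unit_add_le hc (un_un hc (x-1)) h1 (by omega)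
  rw [Wd_un hc] at h3
  have h4 := lt_un c (x-1)
  omega

theorem kidSize (hc : 10 ≤ c) {t : ℕ} (ht : 9 ≤ epo c t) : KidSize c t where
  P := by
    intro g s hs h e he hew hcut hrun
    have h1 : kid c t (e - 1) = .P g := hrun _ (by omega) (by omega)
    obtain ⟨hM, hg⟩ := (kid_P_iff t (e-1) g).mp (Or.inl h1)
    have hgs : g ≤ e - 1 := by
      rw [← hg]
      exact (gM_le hc ht (un_un hc _) hM).trans (un_le c _)
    have h2 := (Wd_dvd_gM hc ht (un_un hc (e-1)) hM (s' := e - 1) (by omega)
      (by rw [Wd_un hc]; exact lt_un c _)).1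
    rw [hg] at h2
    refine ⟨?_, h2⟩
    rcases hcut with h3 | h3 | h3
    · omega
    · have h4 := (wb_prev hc ht).1
      rw [← h3] at h4
      have h5 := (Wd_dvd_un c (e - 1))
      have h6 : Wd c (e - 1) ∣ un c (e - 1) + Wd c (e - 1) := Dvd.dvd.add h5 (dvd_refl _)
      rwa [h4] at h6
    · have h4 := (un_of_ne hc (by omega) h3).2
      rw [← h4]
      have h5 : Wd c (un c (e-1) + Wd c (e-1) - 1) = Wd c (e-1) := by rw [h4]
      rw [h5]
      exact Dvd.dvd.add (Wd_dvd_un c _) (dvd_refl _)
  PT := by
    intro g b s hs h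
    obtain ⟨hM, hg⟩ := (kid_P_iff t s g).mp (Or.inr ⟨b, h⟩)
    rw [kid_of_isM hM, hg] at h
    rcases kidP_cases c t g with h2 | h2
    · rw [h2.1] at h
      simp at h
    · obtain ⟨h3, h0, hag, hak⟩ := h2
      rw [h3] at h
      simp only [Kid.PT.injEq, true_and] at h
      obtain ⟨hub, hact⟩ := ab_spec hc ht h0
      rw [h] at hub hact h0
      have hagb : gM c t b = g := by rw [← h, ← ag_eq, hag]
      have havb : av c t = vM c t b := by rw [av_eq, h]
      obtain ⟨p1, p2, p3, p4, l, q1, q2, q3, -⟩ := acts_pos hc ht hub hact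
      have hW := Wd_pos c b
      refine ⟨un_eq_iff.mp hub, ?_, ?_⟩
      · have := (Wd_dvd_gM hc ht hub (isM_of_acts hact) (s' := b) (by omega) (by omega)).1
        rw [hagb] at this
        exact this
      · have hlow := (acts_cases hc ht hub hact).2.1
        have hhalf := tm_ge_half hc ht
        refine ⟨?_, le_pow_mul hc (by omega)⟩
        rw [havb, q3]
        have hj : ep c b ≤ l := by omega
        exact Dvd.dvd.add ((Wd_dvd_pow hj).trans (dvd_gl c l b)) (Wd_dvd_pow hj)
  R := by
    intro v s hs h hcut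
    obtain ⟨hM, hv⟩ := (kid_R_iff t s v).mp (Or.inl h)
    rw [kid_of_not_isM hM, hv] at h
    rcases kidR_cases c t v with h2 | h2 | h2
    · rw [h2.1] at h; simp at h
    · rw [h2.1] at h; simp at h
    · obtain ⟨h3, h0, hav, hak⟩ := h2
      obtain ⟨hub, hact⟩ := ab_spec hc ht h0
      obtain ⟨p1, p2, p3, p4, l, q1, q2, q3, -⟩ := acts_pos hc ht hub hact
      rw [← av_eq, hav] at q3
      have h12 := (acts_cases hc ht hub hact).1
      have hlt := lt_of_va_eq hc ht hub (un_un hc s) hact hM (by rw [hv, ← av_eq, hav])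
      have h4 := unit_add_le hc hub (un_un hc s) hlt
      have h5 := un_le c s
      have hW := Wd_pos c (ab c t)
      have h6 : s = ab c t + Wd c (ab c t) := by
        by_contra hne
        rcases hcut with h7 | h7 | h7
        · omega
        · omega
        · apply h7
          have hsv : s < v := by
            have := (va_pos hc ht (un_un hc s) (lt_of_le_of_lt h5 hs)
              (fun h1 => hM (Or.inr h1))).1
            rw [hv, Wd_un hc] at this
            have := lt_un c s
            omega
          obtain ⟨k1, k2, -⟩ := kid_above_acts hc ht hub hact (s := s - 1) (by omega)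
            (by rw [← av_eq, hav]; omega)
          rw [kid_of_not_isM k1, k2, kid_of_not_isM hM, hv, ← av_eq, hav]
      have h7 : Wd c (s - 1) = Wd c (ab c t) := by
        have := eq_of_mem_unit hc hub (s := s - 1) (by omega) (by omega)
        rw [← Wd_un hc (s-1), this]
      have hj : ep c (ab c t) ≤ l := by omega
      rw [h7]
      refine ⟨?_, ?_⟩
      · rw [h6]
        exact Dvd.dvd.add (un_eq_iff.mp hub) (dvd_refl _)
      · rw [q3]
        exact Dvd.dvd.add ((Wd_dvd_pow hj).trans (dvd_gl c l _)) (Wd_dvd_pow hj)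
  RT := by
    intro v s hs h hcut
    obtain ⟨hM, hv⟩ := (kid_R_iff t s v).mp (Or.inr (Or.inl h))
    rw [kid_of_not_isM hM, hv] at h
    rcases kidR_cases c t v with h2 | h2 | h2
    · rw [h2.1] at h; simp at h
    · obtain ⟨h3, h0, hav, hak⟩ := h2
      obtain ⟨hub, hact⟩ := ab_spec hc ht h0
      obtain ⟨p1, p2, p3, p4, l, q1, q2, q3, -⟩ := acts_pos hc ht hub hact
      rw [← av_eq, hav] at q3
      have h12 := (acts_cases hc ht hub hact).1
      have hlt := lt_of_va_eq hc ht hub (un_un hc s) hact hM (by rw [hv, ← av_eq, hav])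
      have h4 := unit_add_le hc hub (un_un hc s) hlt
      have h5 := un_le c s
      have hW := Wd_pos c (ab c t)
      have hsv : s < v := by
        have := (va_pos hc ht (un_un hc s) (lt_of_le_of_lt h5 hs)
          (fun h1 => hM (Or.inr h1))).1
        rw [hv, Wd_un hc] at this
        have := lt_un c s
        omega
      have h6 : s = ab c t + Wd c (ab c t) := by
        by_contra hne
        rcases hcut with h7 | h7 | h7
        · omega
        · omega
        · apply h7
          obtain ⟨k1, k2, -⟩ := kid_above_acts hc ht hub hact (s := s - 1) (by omega)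
            (by rw [← av_eq, hav]; omega)
          rw [kid_of_not_isM k1, k2, kid_of_not_isM hM, hv, ← av_eq, hav]
      obtain ⟨n1, n2⟩ := un_next hc hub (by omega) q1 q2 q3
      refine ⟨?_, (n2 s (by omega) (by omega)).1⟩
      rw [h6]
      exact un_eq_iff.mp n1
    · rw [h2.1] at h; simp at h
  RTh := by
    intro v s hs h hcut
    obtain ⟨hM, hv⟩ := (kid_R_iff t s v).mp (Or.inr (Or.inr h))
    have hP : ¬ isP c t (un c s) := fun h1 => hM (Or.inr h1)
    obtain ⟨-, -, v1, v2, -⟩ := va_pos hc ht (un_un hc s) (lt_of_le_of_lt (un_le c s) hs) hP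
    have hj : ep c s ≤ lev c t (un c s) := by
      rw [ep_un hc] at v1
      exact v1
    constructor
    · rcases hcut with h7 | h7 | h7
      · rw [h7]; exact dvd_zero _
      · omega
      · rcases Nat.eq_zero_or_pos s with h0 | h0
        · rw [h0]; exact dvd_zero _
        · exact un_eq_iff.mp (un_of_ne hc h0 h7).1
    · rw [← hv]
      unfold va
      exact Dvd.dvd.add ((Wd_dvd_pow hj).trans (dvd_gl c _ _)) (Wd_dvd_pow hj)
  ep := by
    intro g s hs h
    obtain ⟨hM, hg⟩ := (kid_P_iff t s g).mp h
    have hgs := gM_le hc ht (un_un hc s) hM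
    have hW := Wd_pos c (un c s)
    rcases (Wd_dvd_gM hc ht (un_un hc s) hM (s' := un c s) hgs (by omega)).2 with h1 | h1
    · left; rw [← hg]; exact h1
    · right; rw [← hg, h1.2, ep_un hc]
  low := by
    intro x hx hxw hcut
    apply le_pow_mul hc
    rcases hcut with h7 | h7 | h7
    · omega
    · have h1 := wb_near_t hc ht
      rw [h7]
      omega
    · by_contra hn
      apply h7
      rw [kid_small hc ht (s := x - 1) (by omega), kid_small hc ht (s := x) (by omega)]
  z := by
    intro v
    have h1 := kid_small hc ht (s := 0) (by omega)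
    rw [h1]
    rcases kidP_cases c t 0 with h2 | h2 <;>
    · rw [h2.1]
      simp

end Pool.Agent.Helper29.E3
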