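import Mathlib
import Pool.Agent.Helper29.E3.KidD

/-!
# E-T (MP_12a1af_nt), phase 3: the times of the merges of the mid blocks, `fb`, the zone
-/

namespace Pool.Agent.Helper29.E3

variable [EpFn]

open Pool.Agent.Helper29.ETK
open EpFn (epf)

variable {c : ℕ}

lemma Grid.up {L : ℕ → ℕ} {e0 e1 : ℕ} (h : Grid c L e0) (he : e0 ≤ e1) : Grid c L e1 where
  pos := h.pos
  dvd := fun e h1 => h.dvd e (by omega)
  start := fun e h1 => h.start e (by omega)

lemma Hd_pos (c s : ℕ) : 0 < Hd c s := hh_pos c _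

lemma Ld_pos (c s : ℕ) : 0 < Ld c s := ll_pos c _

lemma mb_le (c s : ℕ) : mb c s ≤ s := Nat.mul_div_le s _

lemma sb_le (c s : ℕ) : sb c s ≤ s := Nat.mul_div_le s _

lemma lt_mb (hc : 10 ≤ c) (s : ℕ) : s < mb c s + Hd c s := (gridH c hc).lt_gs s

lemma lt_sb (hc : 10 ≤ c) (s : ℕ) : s < sb c s + Ld c s := (gridL c hc).lt_gs s

lemma Hd_le_self (hc : 10 ≤ c) {f : ℕ} (h8 : 8 ≤ ep c f) : CC c * Hd c f ≤ f := by
  have h1 := (ep_ge_iff hc (s := f) (e := ep c f) (by omega)).mp (le_refl _)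
  refine le_trans ?_ h1
  have h2 := kk_big hc h8
  have e5 : c * (ep c f + 5) = c * (ep c f + 4) + c := by ring
  have e6 : c * (ep c f + 5) ≤ c * ms (ep c f) :=
    Nat.mul_le_mul_left _ (by have := add_eight_le_ms h8; omega)
  unfold Hd hh
  rw [CC_pow]
  unfold CC
  rw [← pow_add]
  apply Nat.pow_le_pow_right (by norm_num)
  omega

/-- facts about the time `f + 3 Hd c f` -/
lemma block_facts (hc : 10 ≤ c) {f : ℕ} (hf : mb c f = f) (h8 : 8 ≤ ep c f) :
    epo c (f + 3 * Hd c f) ≤ ep c f ∧ ep c f ≤ epo c (f + 3 * Hd c f) + 1 ∧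
    16 * Gq c (epo c (f + 3 * Hd c f)) ∣ f + 3 * Hd c f ∧
    100000 * (1024 * Gq c (epo c (f + 3 * Hd c f))) ≤ Hd c f ∧ 1024 * Hd c f ≤ f := by
  have h0 := Hd_le_self hc h8
  have h1 : 1024 * Hd c f ≤ CC c * Hd c f := Nat.mul_le_mul_right _ (CC_ge hc)
  obtain ⟨h2, h3⟩ := epo_le_ep hc (b := f) (x := f + 3 * Hd c f) (by omega) (by omega)
  have h4 := Gq_dvd_hh hc (E := epo c (f + 3 * Hd c f)) (e := ep c f) (by omega) h8 h2
  have h5 := Gq_le_hh hc (E := epo c (f + 3 * Hd c f)) (e := ep c f) (by omega) h8 h2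
  refine ⟨h2, h3, ?_, ?_, by omega⟩
  · exact Dvd.dvd.add (h4.trans ((gridH c hc).gs_eq_iff.mp hf)) (h4.mul_left 3)
  · refine le_trans ?_ h5
    have h6 : 1024 ^ 3 ≤ CC c ^ 5 := by
      calc 1024 ^ 3 ≤ CC c ^ 3 := Nat.pow_le_pow_left (CC_ge hc) 3
        _ ≤ CC c ^ 5 := pow_le c (by norm_num)
    calc 100000 * (1024 * Gq c (epo c (f + 3 * Hd c f)))
        = 102400000 * Gq c (epo c (f + 3 * Hd c f)) := by ring
      _ ≤ _ := Nat.mul_le_mul_right _ (by norm_num at h6; omega)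

lemma lt_tB (c j f : ℕ) : f + 3 * Hd c f < tB c j f := by
  unfold tB
  have := Gq_pos c (epo c (f + 3 * Hd c f))
  have : 0 < (4 + j) * Gq c (epo c (f + 3 * Hd c f)) := by positivity
  omega

lemma tB_le (hc : 10 ≤ c) {f j : ℕ} (hf : mb c f = f) (h8 : 8 ≤ ep c f) (hj : j ≤ 3) :
    tB c j f + 1000000 * Gq c (epo c (f + 3 * Hd c f)) ≤ f + 4 * Hd c f := by
  obtain ⟨-, -, -, h4, -⟩ := block_facts hc hf h8
  unfold tB
  have : (4 + j) * Gq c (epo c (f + 3 * Hd c f)) ≤ 7 * Gq c (epo c (f + 3 * Hd c f)) :=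
    Nat.mul_le_mul_right _ (by omega)
  omega

lemma tB_mono (c f : ℕ) {j j' : ℕ} (h : j ≤ j') : tB c j f ≤ tB c j' f := by
  unfold tB
  have := Nat.mul_le_mul_right (Gq c (epo c (f + 3 * Hd c f))) (show 4 + j ≤ 4 + j' by omega)
  omega

lemma Hd_mono (hc : 10 ≤ c) {f f' : ℕ} (h8 : 8 ≤ ep c f) (h : f ≤ f') : Hd c f ≤ Hd c f' :=
  (gridH c hc).le_of_le h8 (ep_mono h)

lemma Ld_mono (hc : 10 ≤ c) {f f' : ℕ} (h8 : 8 ≤ ep c f) (h : f ≤ f') : Ld c f ≤ Ld c f' :=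
  (gridL c hc).le_of_le h8 (ep_mono h)

/-- consecutive mid blocks -/
lemma tB_lt (hc : 10 ≤ c) {f f' j j' : ℕ} (hf : mb c f = f) (hf' : mb c f' = f')
    (h8 : 8 ≤ ep c f) (hff : f < f') (hj : j ≤ 3) :
    tB c j f + 1000000 * Gq c (epo c (f + 3 * Hd c f)) < tB c j' f' := by
  have h1 := tB_le hc hf h8 hj
  have h2 : f + Hd c f ≤ f' := (gridH c hc).add_le_of_lt hc (by omega) h8 hf hf' hff
  have h3 := lt_tB c j' f'
  have h4 := Hd_mono hc h8 hff.le
  omega

/-- the small mid blocks are merged -/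
lemma tB_small (hc : 10 ≤ c) {f t j : ℕ} (ht : 9 ≤ epo c t) (h8 : ep c f < 8) (hj : j ≤ 3) :
    tB c j f ≤ t := by
  have h1 := (ep_lt_iff hc (s := f) (e := 8) (by norm_num)).mp h8
  rw [ms_small (by norm_num)] at h1
  have h2 := epo_lower (c := c) (t := t) rfl (by omega)
  have h3 : Hd c f ≤ CC c ^ 16 := by
    unfold Hd hh
    rw [CC_pow]
    apply Nat.pow_le_pow_right (by norm_num)
    have : c * (ep c f + 4) ≤ c * 16 := Nat.mul_le_mul_left _ (by omega)
    omega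
  have h4 := Hd_pos c f
  have h5 := Gq_le_self c (x := f + 3 * Hd c f) (by omega)
  have h6 : CC c ^ 17 ≤ CC c ^ (ms (epo c t) + 1) :=
    pow_le c (by have := add_eight_le_ms (e := epo c t) (by omega); omega)
  have h7 := pow_pred_le (c := c) hc (l := 17) (by omega)
  unfold tB
  have h8 : (4 + j) * Gq c (epo c (f + 3 * Hd c f)) ≤ 7 * Gq c (epo c (f + 3 * Hd c f)) :=
    Nat.mul_le_mul_right _ (by omega)
  simp only [show 17 - 1 = 16 by norm_num] at h7
  simp only [show 2 * 8 = 16 by norm_num] at h1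
  omega

/-! ### the first mid block which is not merged -/

lemma fb_nonempty (hc : 10 ≤ c) (t : ℕ) : {f | mb c f = f ∧ t < tB c 3 f}.Nonempty := by
  have h1 : lg c (CC c ^ (t + 16)) = t + 16 := lg_eq hc (le_refl _)
      (Nat.pow_lt_pow_right (one_lt_CC hc) (by omega))
  have h2 : ep c (CC c ^ (t + 16)) = epf (t + 16) := by unfold ep; rw [h1]
  refine ⟨CC c ^ (t + 16), ?_, ?_⟩
  · rw [mb_eq_gs, (gridH c hc).gs_eq_iff, h2]
    exact (gridH c hc).dvd_pow (le_epf_of (by omega)) (le_epf_iff.mp (le_refl _))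
  · have h1 : t < CC c ^ t := Nat.lt_pow_self (one_lt_CC hc)
    have h3 : CC c ^ t ≤ CC c ^ (t + 16) := pow_le c (by omega)
    have := lt_tB c 3 (CC c ^ (t + 16))
    omega

lemma fb_spec (hc : 10 ≤ c) (t : ℕ) : mb c (fb c t) = fb c t ∧ t < tB c 3 (fb c t) :=
  Nat.sInf_mem (fb_nonempty hc t)

/-- the mid blocks below `fb` are merged -/
lemma tB_of_lt_fb {t f : ℕ} (hf : mb c f = f) (h : f < fb c t) : tB c 3 f ≤ t := by
  by_contra hn
  exact Nat.notMem_of_lt_sInf h ⟨hf, by omega⟩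

lemma fb_le_of {t f : ℕ} (hf : mb c f = f) (h : t < tB c 3 f) : fb c t ≤ f :=
  Nat.sInf_le ⟨hf, h⟩

lemma eight_le_ep_fb (hc : 10 ≤ c) {t : ℕ} (ht : 9 ≤ epo c t) : 8 ≤ ep c (fb c t) := by
  by_contra hn
  have := tB_small hc ht (show ep c (fb c t) < 8 by omega) (le_refl 3)
  have := (fb_spec hc t).2
  omega

/-- a mid block is merged iff it is below `fb` -/
lemma lt_fb_iff (hc : 10 ≤ c) {t f : ℕ} (ht : 9 ≤ epo c t) (hf : mb c f = f) :
    f < fb c t ↔ tB c 3 f ≤ t := by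
  constructor
  · exact tB_of_lt_fb hf
  · intro h
    by_contra hn
    have h1 := (fb_spec hc t).2
    rcases Nat.eq_or_lt_of_le (show fb c t ≤ f by omega) with h2 | h2
    · rw [h2] at h1
      omega
    · have := tB_lt hc (fb_spec hc t).1 hf (eight_le_ep_fb hc ht) h2 (le_refl 3) (j' := 3)
      omega

lemma lt_fb_add (hc : 10 ≤ c) {t : ℕ} (ht : 9 ≤ epo c t) : t < fb c t + 4 * Hd c (fb c t) := by
  have h1 := tB_le hc (fb_spec hc t).1 (eight_le_ep_fb hc ht) (le_refl 3)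
  have h2 := (fb_spec hc t).2
  omega

lemma fb_mono (hc : 10 ≤ c) {t t' : ℕ} (h : t ≤ t') : fb c t ≤ fb c t' :=
  fb_le_of (fb_spec hc t').1 (lt_of_le_of_lt h (fb_spec hc t').2)

/-! ### positions near the time -/

/-- epochs of the positions near the time -/
lemma ep_top (hc : 10 ≤ c) {s t : ℕ} (ht : 9 ≤ epo c t) (h1 : wb c t ≤ s + 1) (h2 : s ≤ t) :
    epo c t ≤ ep c s ∧ ep c s ≤ epo c t + 1 := by
  have h3 := wb_near_t hc ht
  have h4 := lg_wb hc ht
  have h5 : 2 ≤ wb c t := by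
    have h5 := wb_pos hc ht
    have h6 := lg_le c (s := wb c t) (by omega)
    have h7 := pow_le c (show 1 ≤ lg c (wb c t) by omega)
    rw [pow_one] at h7
    have := CC_ge hc
    omega
  have h6 := ep_of_near hc (s := s) (by omega) h2 (by omega)
  exact ⟨h6.1, h6.2.1⟩

/-- the small cells near the time are very short -/
lemma Ld_le_Gq (hc : 10 ≤ c) {s t : ℕ} (ht : 9 ≤ epo c t) (h1 : epo c t ≤ ep c s)
    (h2 : ep c s ≤ epo c t + 1) : 512 * (1024 * Ld c s) ≤ Gq c (epo c t - 1) := by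
  have h3 := ll_le_Gq hc (E := epo c t) (e := ep c s) (by omega) h1 h2
  have h4 : 1024 * ll c (ep c s) ≤ CC c * ll c (ep c s) := Nat.mul_le_mul_right _ (CC_ge hc)
  unfold Ld
  omega

lemma Gq_small_t (hc : 10 ≤ c) {t : ℕ} (ht : 9 ≤ epo c t) : 640000 * Gq c (epo c t) ≤ t := by
  have h1 := Gq_le c (epo c t)
  have h2 := Tq_small (c := c) (t := t) hc (by omega)
  omega

lemma Gq_pred_le (hc : 10 ≤ c) {t : ℕ} (ht : 9 ≤ epo c t) :
    Gq c (epo c t - 1) ≤ Gq c (epo c t) := Gq_mono hc (by omega) (by omega)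

/-- a position not far below `t` is above `wb` -/
lemma lt_of_far (hc : 10 ≤ c) {s t : ℕ} (ht : 9 ≤ epo c t)
    (h : t ≤ s + 100000 * Gq c (epo c t)) : wb c t + 1 ≤ s := by
  have h1 := wb_add_le hc ht
  obtain ⟨h2, h3⟩ := ep_top hc ht (s := wb c t - 1) (by have := wb_pos hc ht; omega)
    (by have := wb_le hc ht; omega)
  have h4 := Gq_le_pow hc (E := epo c t) (l := ep c (wb c t - 1)) (by omega) h2
  have h5 : 1024 * Gq c (epo c t) ≤ CC c * Gq c (epo c t) := Nat.mul_le_mul_right _ (CC_ge hc)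
  have h6 : 100000 * (1024 * Gq c (epo c t)) ≤ Wd c (wb c t - 1) :=
    le_trans (Nat.mul_le_mul_left _ h5) h4
  have h7 := Gq_pos c (epo c t)
  omega

/-- the last small cells below the time -/
lemma zone_facts (hc : 10 ≤ c) {t : ℕ} (ht : 9 ≤ epo c t) :
    sb c (sb c t) = sb c t ∧ wn c t + Ld c (wn c t) = sb c t ∧ sb c (wn c t) = wn c t ∧
    zb c t + Ld c (zb c t) = wn c t ∧ sb c (zb c t) = zb c t ∧
    t < zb c t + 3 * Ld c t ∧ t + 0 ≤ zb c t + Gq c (epo c t - 1) ∧ wb c t + 1 ≤ zb c t ∧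
    Ld c (zb c t) ≤ Ld c (wn c t) ∧ Ld c (wn c t) ≤ Ld c t := by
  have hG := Gq_pred_le hc ht
  have g := gridL c hc
  -- `t`
  obtain ⟨a1, a2⟩ := ep_top hc ht (s := t) (by have := wb_le hc ht; omega) (le_refl _)
  have a3 := Ld_le_Gq hc ht a1 a2
  have a4 : sb c (sb c t) = sb c t := g.gs_gs hc (by omega) (by omega)
  have a5 := sb_le c t
  have a6 := lt_sb hc t
  have hLp := Ld_pos c t
  -- `sb t - 1`
  have b0 := lt_of_far hc ht (s := sb c t - 1) (by omega)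
  obtain ⟨b1, b2⟩ := ep_top hc ht (s := sb c t - 1) (by omega) (by omega)
  have b3 : sb c (sb c t - 1) + Ld c (sb c t - 1) = sb c t :=
    g.prev hc (by omega) (by omega) a4 (by omega)
  have b4 : ep c (wn c t) = ep c (sb c t - 1) := g.ep_gs hc (s := sb c t - 1) (by omega) (by omega)
  have b5 : sb c (wn c t) = wn c t := g.gs_gs hc (s := sb c t - 1) (by omega) (by omega)
  have b6 : Ld c (wn c t) = Ld c (sb c t - 1) := by unfold Ld; rw [b4]
  have b7 : Ld c (wn c t) ≤ Ld c t := by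
    rw [b6]
    exact Ld_mono hc (by omega) (by omega)
  have b8 : wn c t = sb c (sb c t - 1) := rfl
  -- `wn - 1`
  have hwLp := Ld_pos c (wn c t)
  have c0 := lt_of_far hc ht (s := wn c t - 1) (by omega)
  obtain ⟨c1, c2⟩ := ep_top hc ht (s := wn c t - 1) (by omega) (by omega)
  have c3 : sb c (wn c t - 1) + Ld c (wn c t - 1) = wn c t :=
    g.prev hc (by omega) (by omega) b5 (by omega)
  have c4 : ep c (zb c t) = ep c (wn c t - 1) := g.ep_gs hc (s := wn c t - 1) (by omega) (by omega)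
  have c5 : sb c (zb c t) = zb c t := g.gs_gs hc (s := wn c t - 1) (by omega) (by omega)
  have c6 : Ld c (zb c t) = Ld c (wn c t - 1) := by unfold Ld; rw [c4]
  have c7 : Ld c (zb c t) ≤ Ld c (wn c t) := by
    rw [c6]
    exact Ld_mono hc (by omega) (by omega)
  have c8 : zb c t = sb c (wn c t - 1) := rfl
  have d0 := lt_of_far hc ht (s := zb c t) (by omega)
  refine ⟨a4, ?_, b5, ?_, c5, ?_, ?_, d0, c7, b7⟩ <;> omega

end Pool.Agent.Helper29.E3
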