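import Mathlib
import Pool.Agent.Helper29.E3.Top

/-!
# E-T (MP_12a1af_nt), phase 3: the slots of the merges
-/

namespace Pool.Agent.Helper29.E3

variable [EpFn]

open Pool.Agent.Helper29.ETK
open Pool.Agent.ETS (IsRest)

variable {c : ℕ}

lemma div_phase {t x G j : ℕ} (hG : 0 < G) (h1 : x + j * G ≤ t) (h2 : t < x + j * G + G) :
    (t - x) / G = j := by
  obtain ⟨r, hr⟩ : ∃ r, r = t - (x + j * G) := ⟨_, rfl⟩
  have e : t - x = r + G * j := by
    have : j * G = G * j := Nat.mul_comm _ _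
    omega
  rw [e, Nat.add_mul_div_left _ _ hG, Nat.div_eq_of_lt (by omega), Nat.zero_add]

/-- the slot of a change of a unit -/
lemma unit_slot (hc : 10 ≤ c) {b t j : ℕ} (hb : un c b = b) (h8 : 8 ≤ ep c b) (hj1 : 1 ≤ j)
    (hj3 : j ≤ 3) (h1 : tU c j b ≤ t)
    (h2 : t < tU c j b + Gq c (epo c (b + 3 * Wd c b))) :
    epo c t = epo c (b + 3 * Wd c b) ∧
    sst c t = b + 3 * Wd c b + 8 * Gq c (epo c (b + 3 * Wd c b)) ∧ ph c t = 4 + j := by
  obtain ⟨u1, u2, u3, u4, u5⟩ := unit_facts hc hb h8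
  unfold tU at h1 h2
  generalize hx : b + 3 * Wd c b = x at *
  have hG := Gq_pos c (epo c x)
  have e1 : (12 + j) * Gq c (epo c x) = 8 * Gq c (epo c x) + (4 + j) * Gq c (epo c x) := by ring
  have e2 : j * Gq c (epo c x) ≤ 3 * Gq c (epo c x) := Nat.mul_le_mul_right _ hj3
  have e3 : (4 + j) * Gq c (epo c x) = 4 * Gq c (epo c x) + j * Gq c (epo c x) := by ring
  obtain ⟨s1, s2, s3⟩ := slot_hi hc (x := x) (t := t) (by omega) u3 (by omega) (by omega)
  refine ⟨s1, s2, ?_⟩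
  rw [s3]
  exact div_phase hG (by omega) (by omega)

/-- the slot of a unit in the stage `1` or `2` -/
lemma unit_stage (hc : 10 ≤ c) {b t : ℕ} (hb : un c b = b) (h8 : 8 ≤ ep c b)
    (h1 : tU c 1 b ≤ t) (h2 : t < tU c 3 b) :
    epo c t = epo c (b + 3 * Wd c b) ∧
    sst c t = b + 3 * Wd c b + 8 * Gq c (epo c (b + 3 * Wd c b)) ∧
    (ph c t = 5 ∧ t < tU c 2 b ∨ ph c t = 6 ∧ tU c 2 b ≤ t) := by
  have e1 : tU c 2 b = tU c 1 b + Gq c (epo c (b + 3 * Wd c b)) := by unfold tU; ring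
  have e2 : tU c 3 b = tU c 2 b + Gq c (epo c (b + 3 * Wd c b)) := by unfold tU; ring
  rcases Nat.lt_or_ge t (tU c 2 b) with h3 | h3
  · obtain ⟨a1, a2, a3⟩ := unit_slot hc hb h8 (le_refl 1) (by norm_num) h1 (by omega)
    exact ⟨a1, a2, Or.inl ⟨a3, h3⟩⟩
  · obtain ⟨a1, a2, a3⟩ := unit_slot hc hb h8 (show 1 ≤ 2 by norm_num) (by norm_num) h3 (by omega)
    exact ⟨a1, a2, Or.inr ⟨a3, h3⟩⟩

/-- the slot of a change of a mid block -/
lemma block_slot (hc : 10 ≤ c) {f t j : ℕ} (hf : mb c f = f) (h8 : 8 ≤ ep c f) (hj1 : 1 ≤ j)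
    (hj3 : j ≤ 3) (h1 : tB c j f ≤ t)
    (h2 : t < tB c j f + Gq c (epo c (f + 3 * Hd c f))) :
    epo c t = epo c (f + 3 * Hd c f) ∧ sst c t = f + 3 * Hd c f ∧ ph c t = 4 + j := by
  obtain ⟨u1, u2, u3, u4, u5⟩ := block_facts hc hf h8
  unfold tB at h1 h2
  generalize hx : f + 3 * Hd c f = x at *
  have hG := Gq_pos c (epo c x)
  have e2 : j * Gq c (epo c x) ≤ 3 * Gq c (epo c x) := Nat.mul_le_mul_right _ hj3
  have e3 : (4 + j) * Gq c (epo c x) = 4 * Gq c (epo c x) + j * Gq c (epo c x) := by ring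
  obtain ⟨s1, s2, s3⟩ := slot_lo hc (x := x) (t := t) (by omega) u3 (by omega) (by omega)
  refine ⟨s1, s2, ?_⟩
  rw [s3]
  exact div_phase hG (by omega) (by omega)

lemma block_stage (hc : 10 ≤ c) {f t : ℕ} (hf : mb c f = f) (h8 : 8 ≤ ep c f)
    (h1 : tB c 1 f ≤ t) (h2 : t < tB c 3 f) :
    epo c t = epo c (f + 3 * Hd c f) ∧ sst c t = f + 3 * Hd c f ∧
    (ph c t = 5 ∧ t < tB c 2 f ∨ ph c t = 6 ∧ tB c 2 f ≤ t) := by
  have e1 : tB c 2 f = tB c 1 f + Gq c (epo c (f + 3 * Hd c f)) := by unfold tB; ring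
  have e2 : tB c 3 f = tB c 2 f + Gq c (epo c (f + 3 * Hd c f)) := by unfold tB; ring
  rcases Nat.lt_or_ge t (tB c 2 f) with h3 | h3
  · obtain ⟨a1, a2, a3⟩ := block_slot hc hf h8 (le_refl 1) (by norm_num) h1 (by omega)
    exact ⟨a1, a2, Or.inl ⟨a3, h3⟩⟩
  · obtain ⟨a1, a2, a3⟩ := block_slot hc hf h8 (show 1 ≤ 2 by norm_num) (by norm_num) h3 (by omega)
    exact ⟨a1, a2, Or.inr ⟨a3, h3⟩⟩

/-- units change in odd slots, mid blocks in even slots -/
lemma parity (hc : 10 ≤ c) {b f t : ℕ} (hb : un c b = b) (h8 : 8 ≤ ep c b) (hf : mb c f = f)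
    (h8' : 8 ≤ ep c f) (h1 : epo c t = epo c (b + 3 * Wd c b))
    (h2 : sst c t = b + 3 * Wd c b + 8 * Gq c (epo c (b + 3 * Wd c b)))
    (h3 : epo c t = epo c (f + 3 * Hd c f)) (h4 : sst c t = f + 3 * Hd c f) : False := by
  obtain ⟨-, -, u3, -, -⟩ := unit_facts hc hb h8
  obtain ⟨-, -, v3, -, -⟩ := block_facts hc hf h8'
  rw [← h3] at v3
  rw [← h1] at u3 h2
  have hG := Gq_pos c (epo c t)
  have h5 : 16 * Gq c (epo c t) ∣ 8 * Gq c (epo c t) := by
    have h6 : 8 * Gq c (epo c t) = (f + 3 * Hd c f) - (b + 3 * Wd c b) := by omega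
    rw [h6]
    exact Nat.dvd_sub v3 u3
  have := Nat.le_of_dvd (by omega) h5
  omega

/-! ### changes between two close times -/

lemma gth_le (hc : 10 ≤ c) {K : ℕ} (hE : 10 ≤ epo c K) {E : ℕ} (h : epo c K ≤ E + 1) :
    gth c K ≤ Gq c E := by
  unfold gth
  exact Gq_mono hc (by omega) (by omega)

/-- phases are monotone in a slot -/
lemma ph_lt {t x j : ℕ} (h1 : sst c t = x) (h2 : t < x + j * Gq c (epo c t)) : ph c t < j := by
  have hG := Gq_pos c (epo c t)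
  rw [ph_eq h1, Nat.div_lt_iff_lt_mul hG]
  have := sst_le c t
  omega

lemma le_ph {t x j : ℕ} (h1 : sst c t = x) (h2 : x + j * Gq c (epo c t) ≤ t) : j ≤ ph c t := by
  have hG := Gq_pos c (epo c t)
  rw [ph_eq h1, Nat.le_div_iff_mul_le hG]
  omega

/-- a change of a unit between two close times -/
lemma merge_unit (hc : 10 ≤ c) {K K' b j : ℕ} (hE : 10 ≤ epo c K) (h1 : K' ≤ K)
    (h2 : K < K' + gth c K) (hb : un c b = b) (hj1 : 1 ≤ j) (hj3 : j ≤ 3)
    (m1 : K' < tU c j b) (m2 : tU c j b ≤ K) :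
    8 ≤ ep c b ∧ epo c K = epo c (b + 3 * Wd c b) ∧
    sst c K = b + 3 * Wd c b + 8 * Gq c (epo c (b + 3 * Wd c b)) ∧ ph c K = 4 + j ∧
    sameO c K' K ∧ sst c K' = sst c K ∧ epo c K' = epo c K ∧ ph c K' = 3 + j ∧
    K < tU c j b + Gq c (epo c (b + 3 * Wd c b)) ∧
    tU c j b < K' + Gq c (epo c (b + 3 * Wd c b)) := by
  have hnc := near_cases hc hE h1 h2
  have h8 : 8 ≤ ep c b := by
    by_contra hn
    have := tU_small hc (b := b) (t := K') (j := j) (by omega) (by omega) hj3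
    omega
  have hx : epo c K' ≤ epo c (b + 3 * Wd c b) := by
    -- the epoch of `tU` is that of `b + 3 W`
    have a := unit_slot hc hb h8 hj1 hj3 (le_refl (tU c j b))
      (by have := Gq_pos c (epo c (b + 3 * Wd c b)); omega)
    have b := epo_mono (c := c) m1.le
    omega
  have hg := gth_le hc hE (E := epo c (b + 3 * Wd c b)) (by omega)
  obtain ⟨a1, a2, a3⟩ := unit_slot hc hb h8 hj1 hj3 m2 (by omega)
  rcases hnc.2 with ⟨n1, n2, n3, n4, n5⟩ | ⟨n1, n2, n3, n4⟩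
  · refine ⟨h8, a1, a2, a3, n1, n4, n5, ?_, by omega, by omega⟩
    have h9 : ph c K' < 4 + j := by
      apply ph_lt (n4.trans a2)
      rw [n5, a1]
      unfold tU at m1
      have e1 : (12 + j) * Gq c (epo c (b + 3 * Wd c b)) =
        8 * Gq c (epo c (b + 3 * Wd c b)) + (4 + j) * Gq c (epo c (b + 3 * Wd c b)) := by ring
      omega
    omega
  · omega

/-- a change of a mid block between two close times -/
lemma merge_block (hc : 10 ≤ c) {K K' f j : ℕ} (hE : 10 ≤ epo c K) (h1 : K' ≤ K)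
    (h2 : K < K' + gth c K) (hf : mb c f = f) (hj1 : 1 ≤ j) (hj3 : j ≤ 3)
    (m1 : K' < tB c j f) (m2 : tB c j f ≤ K) :
    8 ≤ ep c f ∧ epo c K = epo c (f + 3 * Hd c f) ∧
    sst c K = f + 3 * Hd c f ∧ ph c K = 4 + j ∧
    sameO c K' K ∧ sst c K' = sst c K ∧ epo c K' = epo c K ∧ ph c K' = 3 + j ∧
    K < tB c j f + Gq c (epo c (f + 3 * Hd c f)) ∧
    tB c j f < K' + Gq c (epo c (f + 3 * Hd c f)) := by
  have hnc := near_cases hc hE h1 h2
  have h8 : 8 ≤ ep c f := by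
    by_contra hn
    have := tB_small hc (f := f) (t := K') (j := j) (by omega) (by omega) hj3
    omega
  have hx : epo c K' ≤ epo c (f + 3 * Hd c f) := by
    have a := block_slot hc hf h8 hj1 hj3 (le_refl (tB c j f))
      (by have := Gq_pos c (epo c (f + 3 * Hd c f)); omega)
    have b := epo_mono (c := c) m1.le
    omega
  have hg := gth_le hc hE (E := epo c (f + 3 * Hd c f)) (by omega)
  obtain ⟨a1, a2, a3⟩ := block_slot hc hf h8 hj1 hj3 m2 (by omega)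
  rcases hnc.2 with ⟨n1, n2, n3, n4, n5⟩ | ⟨n1, n2, n3, n4⟩
  · refine ⟨h8, a1, a2, a3, n1, n4, n5, ?_, by omega, by omega⟩
    have h9 : ph c K' < 4 + j := by
      apply ph_lt (n4.trans a2)
      rw [n5, a1]
      unfold tB at m1
      omega
    omega
  · omega

/-- at rest in the part of phase 1, for both times -/
lemma rest_of_ph (hc : 10 ≤ c) {K K' : ℕ} (hE : 9 ≤ epo c K) (hE' : 9 ≤ epo c K')
    (hO : sameO c K' K) (h1 : 3 ≤ ph c K) (h2 : 3 ≤ ph c K') (s : ℕ) :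
    kid c K s = kid c K' s ∧ IsRest (kid c K' s) := by
  rw [kid_rest hc hE (fun b _ => not_acts_of_ph h1 b),
    kid_rest hc hE' (fun b _ => not_acts_of_ph h2 b), rk_congr hO]
  exact ⟨rfl, isRest_rk c K s⟩

/-! ### Omega -/

lemma om_congr {K K' : ℕ} (he : eom c K = eom c K')
    (hm : (K + Gq c (eom c K) / 2) / (2 * Gq c (eom c K)) =
      (K' + Gq c (eom c K) / 2) / (2 * Gq c (eom c K))) : om c K = om c K' := by
  unfold om pom
  rw [hm, he]

lemma div_two_eq {x G m : ℕ} (hG : 0 < G) (h1 : 2 * G * m ≤ x) (h2 : x < 2 * G * m + 2 * G) :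
    x / (2 * G) = m := by
  obtain ⟨r, hr⟩ : ∃ r, r = x - 2 * G * m := ⟨_, rfl⟩
  have e : x = r + 2 * G * m := by omega
  rw [e, Nat.add_mul_div_left _ _ (by omega), Nat.div_eq_of_lt (by omega), Nat.zero_add]

/-- two times in the same interval of length `2 G` -/
lemma om_eq_of {K K' G m : ℕ} (hG : 0 < G) (he : Gq c (eom c K) = G) (hee : eom c K = eom c K')
    (h1 : K' ≤ K) (h2 : 2 * G * m ≤ K' + G / 2) (h3 : K + G / 2 < 2 * G * m + 2 * G) :
    om c K = om c K' := by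
  apply om_congr hee
  rw [he, div_two_eq hG (m := m) (by omega) h3, div_two_eq hG (m := m) h2 (by omega)]

lemma eom_eq_of_lt (hc : 10 ≤ c) {t : ℕ} (hE : 4 ≤ epo c t)
    (h : t + 2 * Gq c (epo c t) < CC c ^ (ms (epo c t + 1) + 1)) : eom c t = epo c t := by
  unfold eom
  exact epo_eq hc ((epo_lower rfl (by omega)).trans (by omega)) h

lemma eom_cases (hc : 10 ≤ c) {t : ℕ} (hE : 8 ≤ epo c t) :
    (eom c t = epo c t ∧ t + 2 * Gq c (epo c t) < CC c ^ (ms (epo c t + 1) + 1)) ∨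
    (eom c t = epo c t + 1 ∧ CC c ^ (ms (epo c t + 1) + 1) ≤ t + 2 * Gq c (epo c t)) := by
  rcases Nat.lt_or_ge (t + 2 * Gq c (epo c t)) (CC c ^ (ms (epo c t + 1) + 1)) with h | h
  · exact Or.inl ⟨eom_eq_of_lt hc (by omega) h, h⟩
  · right
    refine ⟨?_, h⟩
    have h1 := epo_upper hc (t := t) rfl (by omega)
    have h2 := Tq_small (c := c) (t := t) hc hE
    have h3 := Gq_le c (epo c t)
    have h4 := pow_pred_le (c := c) hc (l := ms (epo c t + 1) + 2) (by omega)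
    have h5 := pow_le c (show ms (epo c t + 1) + 2 ≤ ms (epo c t + 1 + 1) + 1 by
      have := ms_succ_lt (epo c t + 1); omega)
    have e : ms (epo c t + 1) + 2 - 1 = ms (epo c t + 1) + 1 := by omega
    rw [e] at h4
    unfold eom
    exact epo_eq hc h (by omega)

end Pool.Agent.Helper29.E3
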