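import Mathlib
import Pool.Agent.Helper29.E3.Om

/-!
# E-T (MP_12a1af_nt), phase 3: two close times, the part of phase 1
-/

namespace Pool.Agent.Helper29.E3

variable [EpFn]

open Pool.Agent.Helper29.ETK
open Pool.Agent.ETS (IsRest)

variable {c : ℕ}

/-- two close times without a merge of a unit between them -/
theorem nearOld (hc : 10 ≤ c) {K K' : ℕ} (hE : 10 ≤ epo c K) (hK' : 9 ≤ epo c K') (h1 : K' ≤ K)
    (h2 : K < K' + gth c K) (hw : wb c K = wb c K') :
    (∀ s, s < wb c K' → kid c K s = kid c K' s ∧ IsRest (kid c K' s)) ∨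
    ∃ g b v σ σ', (σ = σ' ∨ σ = σ' + 1 ∨ σ' = σ + 1) ∧ σ ≤ 4 ∧ σ' ≤ 4 ∧
      CellAt c K g b v σ ∧ CellAt c K' g b v σ' ∧
      ((ph c K' < 3 ∨ ph c K < 3) ∧ (ph c K = 1 → ph c K' = 1 → σ = 2 ∧ σ' = 2)) ∧
      ∀ s, s < wb c K' → (s < g ∨ v ≤ s) → kid c K s = kid c K' s := by
  obtain ⟨hEE, hnc⟩ := near_cases hc hE h1 h2
  have hK6 : 9 ≤ epo c K := by omega
  have hTG := Gq_le c (epo c K)
  have hTs := Tq_small (c := c) (t := K) hc (by omega)
  have hgthK' : gth c K ≤ Gq c (epo c K') := gth_le hc hE hEE
  have hGK : Gq c (epo c K') ≤ Gq c (epo c K) := Gq_mono hc (by omega) (epo_mono h1)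
  by_cases hact : ∃ b, un c b = b ∧ acts c K b
  · obtain ⟨b, hb, ha⟩ := hact
    right
    obtain ⟨h12, h8, hph, htm, hcase⟩ := acts_cases hc hK6 hb ha
    obtain ⟨hab, hb0⟩ := ab_eq hc hK6 hb ha
    have hwK' : vM c K b ≤ wb c K' := by rw [← hw]; exact (acts_pos hc hK6 hb ha).2.2.2.1
    have hC := cellAt_acts hc hK6 hb ha
    have hak := ak_lt hc hK6 (show 0 < ab c K by omega)
    have hakK : ak c K = if isP c (tm c K) b then 2 - ph c K else ph c K := by
      unfold ak; rw [hab]
    rcases hnc with ⟨hO, hphs, htms, -, -⟩ | ⟨hph', hph0, hO, -⟩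
    · -- the same slot
      have htm' := htms hph
      have ha' : acts c K' b := by
        unfold acts at ha ⊢
        rw [htm', isP_congr hO]
        exact ha
      have hg' : gM c K' b = gM c K b := by
        unfold gM
        rw [htm', ga_congr hO]
      have hv' : vM c K' b = vM c K b := by
        unfold vM
        rw [htm', va_congr hO]
      have hC' := cellAt_acts hc hK' hb ha'
      obtain ⟨hab', hb0'⟩ := ab_eq hc hK' hb ha'
      have hak' := ak_lt hc hK' (show 0 < ab c K' by omega)
      have hakK' : ak c K' = if isP c (tm c K) b then 2 - ph c K' else ph c K' := by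
        unfold ak; rw [hab', htm']
      have hphK' : ph c K' < 3 := by omega
      rw [hg', hv'] at hC'
      refine ⟨gM c K b, b, vM c K b, ak c K + 1, ak c K' + 1, ?_, by omega, by omega, hC, hC',
        ⟨by omega, fun e1 e2 => by
          rw [hakK, hakK', e1, e2]; split_ifs <;> exact ⟨rfl, rfl⟩⟩, ?_⟩
      · rw [hakK, hakK']
        split_ifs <;> omega
      · intro s hs1 hs2
        have hs3 : s < wb c K := by rw [hw]; exact hs1
        rw [(kid_outside hc hK6 hb ha hs3 hs2).1,
          (kid_outside hc hK' hb ha' hs1 (by rw [hg', hv']; exact hs2)).1, rk_congr hO]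
    · -- `K'` is in the slot before
      have hrest : ∀ b, un c b = b → ¬ acts c K' b := fun b _ => not_acts_of_ph (by omega) b
      rcases hcase with hc1 | hc1
      · -- up
        obtain ⟨u1, u2, -⟩ := hc1
        have hak0 : ak c K = 0 := by rw [hakK, if_neg u2, hph0]
        refine ⟨gM c K b, b, vM c K b, ak c K + 1, 0, by omega, by omega, by omega, hC, ?_, ⟨by omega, by omega⟩, ?_⟩
        · exact cellAt_rest hc hK6 hb ha (Or.inr rfl) hK' hrest hO hwK' (by omega)
            (Or.inl ⟨rfl, Or.inl ⟨u1, rfl⟩⟩)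
        · intro s hs1 hs2
          have hs3 : s < wb c K := by rw [hw]; exact hs1
          have ho := kid_outside hc hK6 hb ha hs3 hs2
          rw [ho.1, kid_rest hc hK' hrest, rk_congr hO, ho.2.1]
      · -- down
        obtain ⟨u1, u2, -⟩ := hc1
        have hak0 : ak c K = 2 := by rw [hakK, if_pos u2, hph0]
        refine ⟨gM c K b, b, vM c K b, ak c K + 1, 4, by omega, by omega, by omega, hC, ?_, ⟨by omega, by omega⟩, ?_⟩
        · exact cellAt_rest hc hK6 hb ha (Or.inr rfl) hK' hrest hO hwK' (by omega)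
            (Or.inr ⟨rfl, Or.inr ⟨u1, rfl⟩⟩)
        · intro s hs1 hs2
          have hs3 : s < wb c K := by rw [hw]; exact hs1
          have ho := kid_outside hc hK6 hb ha hs3 hs2
          rw [ho.1, kid_rest hc hK' hrest, rk_congr hO, ho.2.1]
  · push Not at hact
    rcases hnc with ⟨hO, hphs, htms, -, -⟩ | ⟨hph', hph0, hO, -⟩
    · by_cases hact' : ∃ b, un c b = b ∧ acts c K' b
      · -- `K'` in transition, `K` at rest
        obtain ⟨b, hb, ha'⟩ := hact'
        right
        obtain ⟨h12, h8, hph', htm', hcase⟩ := acts_cases hc hK' hb ha'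
        have hphK : 3 ≤ ph c K := by
          by_contra hn
          have e := htms (by omega)
          apply hact b hb
          unfold acts at ha' ⊢
          rw [← e, ← isP_congr hO]
          exact ha'
        obtain ⟨hab', hb0'⟩ := ab_eq hc hK' hb ha'
        obtain ⟨p1, p2, p3, p4, -⟩ := acts_pos hc hK' hb ha'
        have hwK : vM c K' b ≤ wb c K := by rw [hw]; exact p4
        have hC' := cellAt_acts hc hK' hb ha'
        have hak' := ak_lt hc hK' (show 0 < ab c K' by omega)
        have hakK' : ak c K' = if isP c (tm c K') b then 2 - ph c K' else ph c K' := by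
          unfold ak; rw [hab']
        have hph2 : ph c K' = 2 := by omega
        rcases hcase with hc1 | hc1
        · obtain ⟨u1, u2, -⟩ := hc1
          have hak0 : ak c K' = 2 := by rw [hakK', if_neg u2, hph2]
          refine ⟨gM c K' b, b, vM c K' b, 4, ak c K' + 1, by omega, by omega, by omega, ?_,
            hC', ⟨by omega, by omega⟩, ?_⟩
          · exact cellAt_rest hc hK' hb ha' (Or.inl rfl) hK6 hact hO.symm hwK (by omega)
              (Or.inr ⟨rfl, Or.inl ⟨u1, rfl⟩⟩)
          · intro s hs1 hs2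
            have ho := kid_outside hc hK' hb ha' hs1 hs2
            rw [ho.1, kid_rest hc hK6 hact, rk_congr hO]
        · obtain ⟨u1, u2, -⟩ := hc1
          have hak0 : ak c K' = 0 := by rw [hakK', if_pos u2, hph2]
          refine ⟨gM c K' b, b, vM c K' b, 0, ak c K' + 1, by omega, by omega, by omega, ?_,
            hC', ⟨by omega, by omega⟩, ?_⟩
          · exact cellAt_rest hc hK' hb ha' (Or.inl rfl) hK6 hact hO.symm hwK (by omega)
              (Or.inl ⟨rfl, Or.inr ⟨u1, rfl⟩⟩)
          · intro s hs1 hs2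
            have ho := kid_outside hc hK' hb ha' hs1 hs2
            rw [ho.1, kid_rest hc hK6 hact, rk_congr hO]
      · push Not at hact'
        left
        intro s hs
        rw [kid_rest hc hK6 hact, kid_rest hc hK' hact', rk_congr hO]
        exact ⟨rfl, isRest_rk c K s⟩
    · have hrest : ∀ b, un c b = b → ¬ acts c K' b := fun b _ => not_acts_of_ph (by omega) b
      left
      intro s hs
      rw [kid_rest hc hK6 hact, kid_rest hc hK' hrest, rk_congr hO,
        rk_tm hc hK6 (hact _ (un_un hc s))]
      exact ⟨rfl, isRest_rk c K s⟩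


end Pool.Agent.Helper29.E3
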