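import Mathlib
import Pool.Agent.Helper29.E3.NearO

/-!
# E-T (MP_12a1af_nt), phase 3: `Omega` is the same at two close times when something happens
-/

namespace Pool.Agent.Helper29.E3

variable [EpFn]

open Pool.Agent.Helper29.ETK
open Pool.Agent.ETS (IsRest)

variable {c : ℕ}

lemma four_Gq (hc : 10 ≤ c) {E : ℕ} (hE : 5 ≤ E) : 4 * Gq c (E - 1) ≤ Gq c E := by
  have h := kk_le hc (show 4 ≤ E - 1 by omega)
  have h1 := kk_succ (E - 1)
  have e0 : E - 1 + 1 = E := by omega
  rw [e0] at h1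
  have e1 := mul_sub_eq (c := c) (e := E - 1) (k := 1) (by omega)
  have e2 := mul_sub_eq (c := c) (e := E) (k := 1) (by omega)
  have e3 : c * (E - 1) + c = c * E := by
    have : c * (E - 1) + c = c * (E - 1 + 1) := by ring
    rw [this, e0]
  unfold Gq
  calc 4 * 2 ^ (c * (E - 1 - 1) - 10 - kk (E - 1))
      = 2 ^ (2 + (c * (E - 1 - 1) - 10 - kk (E - 1))) := by rw [pow_add]; norm_num
    _ ≤ _ := Nat.pow_le_pow_right (by norm_num) (by omega)

/-- a slot ends before the next epoch -/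
lemma sst_add_le (hc : 10 ≤ c) {t : ℕ} (hE : 4 ≤ epo c t) :
    sst c t + 8 * Gq c (epo c t) ≤ CC c ^ (ms (epo c t + 1) + 1) := by
  have h1 := epo_upper hc (t := t) rfl (by omega)
  have h2 := sst_le c t
  have h3 := dvd_sst c t
  have h4 : 8 * Gq c (epo c t) ∣ CC c ^ (ms (epo c t + 1) + 1) :=
    (Nat.mul_dvd_mul_right (by norm_num) _).trans
      (Gq_dvd_pow hc hE (l := ms (epo c t + 1) + 1) (by have := le_ms (epo c t + 1); omega))
  have := Nat.le_of_dvd (by omega) (Nat.dvd_sub h4 h3)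
  omega

/-- the slot of a unit is not the last slot of the epoch -/
lemma bd_unit (hc : 10 ≤ c) {b t : ℕ} (hb : un c b = b) (h8 : 8 ≤ ep c b)
    (h1 : epo c t = epo c (b + 3 * Wd c b))
    (h2 : sst c t = b + 3 * Wd c b + 8 * Gq c (epo c (b + 3 * Wd c b))) :
    sst c t + 16 * Gq c (epo c t) ≤ CC c ^ (ms (epo c t + 1) + 1) := by
  obtain ⟨u1, u2, u3, u4, u5⟩ := unit_facts hc hb h8
  rw [← h1] at u1 u2 u3 u4 h2
  have h3 := sst_add_le hc (t := t) (by omega)
  have hG := Gq_pos c (epo c t)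
  by_contra hn
  have h4 : 8 * Gq c (epo c t) ∣ CC c ^ (ms (epo c t + 1) + 1) - sst c t :=
    Nat.dvd_sub ((Nat.mul_dvd_mul_right (by norm_num) _).trans
      (Gq_dvd_pow hc (by omega) (l := ms (epo c t + 1) + 1) (by have := le_ms (epo c t + 1); omega))) (dvd_sst c t)
  have h5 : CC c ^ (ms (epo c t + 1) + 1) = b + 3 * Wd c b + 16 * Gq c (epo c t) := by
    obtain ⟨k, hk⟩ := h4
    have h6 : 8 * Gq c (epo c t) * k < 8 * Gq c (epo c t) * 2 := by rw [← hk]; omega
    have h7 : k < 2 := lt_of_mul_lt_mul_left h6 (Nat.zero_le _)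
    have h8 : k ≠ 0 := by
      rintro rfl
      rw [mul_zero] at hk
      omega
    have h9 : k = 1 := by omega
    rw [h9, mul_one] at hk
    omega
  have h6 : Wd c b ∣ CC c ^ (ms (epo c t + 1) + 1) :=
    Wd_dvd_pow (by have := le_ms (epo c t + 1); omega)
  have h7 : Wd c b ∣ b + 3 * Wd c b := Dvd.dvd.add (un_eq_iff.mp hb) (Dvd.intro_left _ rfl)
  have h8 : Wd c b ∣ 16 * Gq c (epo c t) := by
    have := Nat.dvd_sub h6 h7
    rwa [show CC c ^ (ms (epo c t + 1) + 1) - (b + 3 * Wd c b) = 16 * Gq c (epo c t) by omega] at this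
  have := Nat.le_of_dvd (by omega) h8
  omega

lemma bd_block (hc : 10 ≤ c) {f t : ℕ} (hf : mb c f = f) (h8 : 8 ≤ ep c f)
    (h1 : epo c t = epo c (f + 3 * Hd c f)) (h2 : sst c t = f + 3 * Hd c f) :
    sst c t + 16 * Gq c (epo c t) ≤ CC c ^ (ms (epo c t + 1) + 1) := by
  obtain ⟨u1, u2, u3, u4, u5⟩ := block_facts hc hf h8
  rw [← h1] at u1 u2 u3 u4
  have h3 := sst_add_le hc (t := t) (by omega)
  have hG := Gq_pos c (epo c t)
  by_contra hn
  have h4 : 8 * Gq c (epo c t) ∣ CC c ^ (ms (epo c t + 1) + 1) - sst c t :=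
    Nat.dvd_sub ((Nat.mul_dvd_mul_right (by norm_num) _).trans
      (Gq_dvd_pow hc (by omega) (l := ms (epo c t + 1) + 1) (by have := le_ms (epo c t + 1); omega))) (dvd_sst c t)
  have h5 : CC c ^ (ms (epo c t + 1) + 1) = f + 3 * Hd c f + 8 * Gq c (epo c t) := by
    obtain ⟨k, hk⟩ := h4
    have h6 : 8 * Gq c (epo c t) * k < 8 * Gq c (epo c t) * 2 := by rw [← hk]; omega
    have h7 : k < 2 := lt_of_mul_lt_mul_left h6 (Nat.zero_le _)
    have h8 : k ≠ 0 := by
      rintro rfl
      rw [mul_zero] at hk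
      omega
    have h9 : k = 1 := by omega
    rw [h9, mul_one] at hk
    omega
  have h6 : Hd c f ∣ CC c ^ (ms (epo c t + 1) + 1) :=
    (gridH c hc).dvd_pow (e := ep c f) h8 (by have := ms_mono u2; omega)
  have h7 : Hd c f ∣ f + 3 * Hd c f :=
    Dvd.dvd.add ((gridH c hc).gs_eq_iff.mp hf) (Dvd.intro_left _ rfl)
  have h8 : Hd c f ∣ 8 * Gq c (epo c t) := by
    have := Nat.dvd_sub h6 h7
    rwa [show CC c ^ (ms (epo c t + 1) + 1) - (f + 3 * Hd c f) = 8 * Gq c (epo c t) by omega] at this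
  have := Nat.le_of_dvd (by omega) h8
  omega

/-- bounds from the phase -/
lemma ph_bounds (t : ℕ) : sst c t + ph c t * Gq c (epo c t) ≤ t ∧
    t < sst c t + ph c t * Gq c (epo c t) + Gq c (epo c t) := by
  have hG := Gq_pos c (epo c t)
  have h1 : ph c t = (t - sst c t) / Gq c (epo c t) := ph_eq rfl
  have h2 := sst_le c t
  have h3 := Nat.div_mul_le_self (t - sst c t) (Gq c (epo c t))
  have h4 := Nat.lt_mul_div_succ (t - sst c t) hG
  rw [mul_add, mul_one] at h4
  rw [← h1] at h3 h4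
  have e : Gq c (epo c t) * ph c t = ph c t * Gq c (epo c t) := Nat.mul_comm _ _
  omega

/-- `Omega` is the same: the same slot -/
lemma om_same (hc : 10 ≤ c) {K K' : ℕ} (hE : 10 ≤ epo c K) (h1 : K' ≤ K)
    (h2 : K < K' + gth c K) (hs : sst c K' = sst c K) (he : epo c K' = epo c K)
    (hB : K + 2 * Gq c (epo c K) < CC c ^ (ms (epo c K + 1) + 1))
    (hp : (ph c K = ph c K' ∧ (ph c K = 0 ∨ ph c K = 2 ∨ ph c K = 6)) ∨
      ph c K = ph c K' + 1) : om c K = om c K' := by
  have hG := Gq_pos c (epo c K)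
  have e1 := eom_eq_of_lt hc (t := K) (by omega) hB
  have e2 := eom_eq_of_lt hc (t := K') (by omega) (by rw [he]; omega)
  have b1 := ph_bounds (c := c) K
  have b2 := ph_bounds (c := c) K'
  rw [hs, he] at b2
  have h4 := four_Gq hc (E := epo c K) (by omega)
  have hg : gth c K = Gq c (epo c K - 1) := rfl
  obtain ⟨n, hn⟩ := dvd_sst c K
  generalize hGE : Gq c (epo c K) = G at *
  have key : ∀ i, sst c K + 2 * i * G ≤ K' + G / 2 → K + G / 2 < sst c K + 2 * i * G + 2 * G →
      om c K = om c K' := by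
    intro i k1 k2
    have e3 : 2 * G * (4 * n + i) = sst c K + 2 * i * G := by rw [hn]; ring
    exact om_eq_of hG (by rw [e1, hGE]) (by rw [e1, e2, he]) h1 (m := 4 * n + i) (by omega)
      (by omega)
  have hjj : ∃ i, ph c K = 2 * i ∨ ph c K = 2 * i + 1 := ⟨ph c K / 2, by omega⟩
  rcases hp with ⟨hp1, hp2⟩ | hp1
  · rw [← hp1] at b2
    rcases hp2 with hp2 | hp2 | hp2
    · apply key 0 <;> rw [hp2] at b1 b2 <;> omega
    · apply key 1 <;> rw [hp2] at b1 b2 <;> omega
    · apply key 3 <;> rw [hp2] at b1 b2 <;> omega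
  · obtain ⟨i, hi⟩ := hjj
    have e4 : ph c K * G = ph c K' * G + G := by rw [hp1]; ring
    rcases hi with hi | hi
    · have e5 : ph c K * G = 2 * i * G := by rw [hi]
      apply key i <;> omega
    · have e5 : ph c K * G = 2 * i * G + G := by rw [hi]; ring
      apply key i <;> omega

/-- `Omega` is the same: the beginning of a slot lies between the times -/
lemma om_cross (hc : 10 ≤ c) {K K' : ℕ} (hE : 10 ≤ epo c K) (h1 : K' ≤ K)
    (h2 : K < K' + gth c K) (hs : K' < sst c K) : om c K = om c K' := by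
  have hG := Gq_pos c (epo c K)
  have hnc := (near_cases hc hE h1 h2).1
  have hEs := epo_sst hc (t := K) (by omega)
  have hsK := sst_le c K
  have h4 := four_Gq hc (E := epo c K) (by omega)
  have hg : gth c K = Gq c (epo c K - 1) := rfl
  have hB := sst_add_le hc (t := K) (by omega)
  have e1 := eom_eq_of_lt hc (t := K) (by omega) (by omega)
  have e2 : eom c K' = epo c K := by
    have a1 : epo c K' ≤ epo c K := epo_mono h1
    have a2 : Gq c (epo c K - 1) ≤ Gq c (epo c K') := Gq_mono hc (by omega) (by omega)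
    have a3 : Gq c (epo c K') ≤ Gq c (epo c K) := Gq_mono hc (by omega) a1
    unfold eom
    apply le_antisymm
    · have h6 := epo_lower (c := c) (t := K) rfl (by omega)
      rcases Nat.lt_or_ge (K' + 2 * Gq c (epo c K')) K with h5 | h5
      · exact epo_mono (by omega)
      · exact (epo_eq hc (E := epo c K) (by omega) (by omega)).le
    · rw [← hEs]
      exact epo_mono (by omega)
  obtain ⟨n, hn⟩ := dvd_sst c K
  have e3 : 2 * Gq c (epo c K) * (4 * n) = sst c K := by rw [hn]; ring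
  exact om_eq_of hG (by rw [e1]) (by rw [e1, e2]) h1 (m := 4 * n) (by omega) (by omega)

end Pool.Agent.Helper29.E3
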