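import Mathlib
import Pool.Agent.Helper29.E3.Sched

/-!
# E-T (MP_12a1af_nt), phase 3: the epoch function with the rate `u / v`
-/

namespace Pool.Agent.Helper29.E3

open EpFn (epf)

/-- the epoch function with the rate `u / v`, `1 / 2 ≤ u / v ≤ 2 / 3` -/
def epUV (u v m : ℕ) : ℕ := max (m / 2) (u * m / v - 16)

section

variable {u v : ℕ} (hv : 0 < v) (h1 : v ≤ 2 * u) (h2 : 3 * u ≤ 2 * v)

include hv h2 in
lemma epUV_third' (m : ℕ) : 3 * (u * m / v) ≤ 2 * m := by
  have h : v * (3 * (u * m / v)) ≤ v * (2 * m) := by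
    calc v * (3 * (u * m / v)) = 3 * (v * (u * m / v)) := by ring
      _ ≤ 3 * (u * m) := Nat.mul_le_mul_left _ (Nat.mul_div_le _ _)
      _ = 3 * u * m := by ring
      _ ≤ 2 * v * m := Nat.mul_le_mul_right _ h2
      _ = v * (2 * m) := by ring
  exact le_of_mul_le_mul_left h hv

include h1 hv in
lemma half_le_uv (m : ℕ) : m / 2 ≤ u * m / v := by
  rw [Nat.le_div_iff_mul_le hv]
  calc m / 2 * v ≤ m / 2 * (2 * u) := Nat.mul_le_mul_left _ h1
    _ = m / 2 * 2 * u := by ring
    _ ≤ m * u := Nat.mul_le_mul_right _ (Nat.div_mul_le_self m 2)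
    _ = u * m := by ring

/-- upper bound -/
lemma epUV_le (hv : 0 < v) (h1 : v ≤ 2 * u) (m : ℕ) : epUV u v m ≤ u * m / v := by
  unfold epUV
  exact max_le (half_le_uv hv h1 m) (Nat.sub_le _ _)

/-- lower bound -/
lemma le_epUV (u v m : ℕ) : u * m / v ≤ epUV u v m + 16 := by
  unfold epUV
  omega

end

/-- the epoch function with the rate `u / v` -/
@[reducible] def ofUV {u v : ℕ} (hv : 0 < v) (h1 : v ≤ 2 * u) (h2 : 3 * u ≤ 2 * v) : EpFn where
  epf := epUV u v
  mono := by
    intro m n h
    unfold epUV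
    have : u * m / v ≤ u * n / v := Nat.div_le_div_right (Nat.mul_le_mul_left _ h)
    omega
  lip := by
    intro m
    have h3 : u * (m + 1) / v ≤ u * m / v + 1 := by
      rw [← Nat.add_div_right _ hv]
      apply Nat.div_le_div_right
      have : u * (m + 1) = u * m + u := by ring
      omega
    unfold epUV
    omega
  fast := by
    intro m
    have h3 : u * m / v + 1 ≤ u * (m + 2) / v := by
      rw [← Nat.add_div_right _ hv]
      apply Nat.div_le_div_right
      have : u * (m + 2) = u * m + 2 * u := by ring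
      omega
    unfold epUV
    omega
  slow := by
    intro m
    have h3 : u * (m + 3) / v ≤ u * m / v + 2 := by
      have e : u * m / v + 2 = (u * m + v + v) / v := by
        rw [Nat.add_div_right _ hv, Nat.add_div_right _ hv]
      rw [e]
      apply Nat.div_le_div_right
      have : u * (m + 3) = u * m + 3 * u := by ring
      omega
    unfold epUV
    omega
  half := by
    intro m
    unfold epUV
    omega
  third := by
    intro m
    have := epUV_third' hv h2 m
    unfold epUV
    omega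
  gap := by
    intro m hm
    have := epUV_third' hv h2 m
    unfold epUV
    omega
  small := by
    intro m hm
    have := epUV_third' hv h2 m
    unfold epUV
    omega

section

variable {u v : ℕ} (hv : 0 < v) (h1 : v ≤ 2 * u) (h2 : 3 * u ≤ 2 * v)

lemma epf_ofUV (m : ℕ) : (ofUV hv h1 h2).epf m = epUV u v m := rfl

/-- lower bound for the epoch -/
lemma uv_mul_le (m : ℕ) : u * m ≤ v * ((ofUV hv h1 h2).epf m + 17) := by
  have h3 := le_epUV u v m
  have h4 := Nat.lt_mul_div_succ (u * m) hv
  have h5 : v * (u * m / v + 1) ≤ v * (epUV u v m + 17) := Nat.mul_le_mul_left _ (by omega)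
  rw [epf_ofUV]
  omega

/-- upper bound for the epoch -/
lemma uv_le_mul (m : ℕ) : v * (ofUV hv h1 h2).epf m ≤ u * m := by
  have h3 := epUV_le (u := u) (v := v) hv h1 m
  rw [epf_ofUV]
  exact (Nat.mul_le_mul_left _ h3).trans (Nat.mul_div_le _ _)

/-- the exponent of the thinning -/
lemma uv_th (m : ℕ) :
    v * (2 * (ofUV hv h1 h2).epf m - @ms (ofUV hv h1 h2) ((ofUV hv h1 h2).epf m)) ≤
      (2 * u - v) * m := by
  let _ : EpFn := ofUV hv h1 h2
  have h3 : ms (epf m) ≤ m := le_epf_iff.mp (le_refl _)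
  have h4 : epf (ms (epf m)) = epf m := epf_ms _
  show v * (2 * epf m - ms (epf m)) ≤ (2 * u - v) * m
  have h5 : v * epf (ms (epf m)) ≤ u * ms (epf m) := uv_le_mul hv h1 h2 _
  rw [h4] at h5
  generalize epf m = e at *
  generalize ms e = k at *
  calc v * (2 * e - k) = 2 * (v * e) - v * k := by rw [Nat.mul_sub]; congr 1; ring
    _ ≤ 2 * (u * k) - v * k := Nat.sub_le_sub_right (Nat.mul_le_mul_left _ h5) _
    _ = (2 * u - v) * k := by rw [Nat.sub_mul]; congr 1; ring
    _ ≤ (2 * u - v) * m := Nat.mul_le_mul_left _ h3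

/-- the exponent of the multiplicity -/
lemma uv_rd (m : ℕ) :
    v * (@ms (ofUV hv h1 h2) ((ofUV hv h1 h2).epf m) - (ofUV hv h1 h2).epf m) ≤
      (v - u) * m + 17 * v := by
  let _ : EpFn := ofUV hv h1 h2
  have h3 : ms (epf m) ≤ m := le_epf_iff.mp (le_refl _)
  show v * (ms (epf m) - epf m) ≤ (v - u) * m + 17 * v
  have h5 : u * m ≤ v * (epf m + 17) := uv_mul_le hv h1 h2 _
  generalize epf m = e at *
  generalize ms e = k at *
  have h6 : v * k ≤ v * m := Nat.mul_le_mul_left _ h3
  have h7 : v * (e + 17) = v * e + 17 * v := by ring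
  rw [Nat.mul_sub, Nat.sub_mul]
  omega

end

end Pool.Agent.Helper29.E3
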